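import Mathlib
import Pool.Agent.Lib.MP_663568_h6.UpQ

/-!
# Linear phases: correlations on windows, systems of separated frequencies, the Bessel inequality
-/

set_option autoImplicit false
open Finset

namespace Pool.Agent.Lib.MP_663568_dch

open Pool.Agent.Lib.MP_663568_nt Pool.Agent.Lib.MP_663568_nt.Katai
  Pool.Agent.Lib.MP_663568_nt.Nul Pool.Agent.Lib.MP_663568_nt.H6

/-- the linear phase with frequency `y` -/
noncomputable def ph (y : ℝ) (n : ℕ) : ℂ := ee (y * n)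

lemma norm_ph (y : ℝ) (n : ℕ) : ‖ph y n‖ ≤ 1 := (norm_ee _).le

lemma ph_mul (y : ℝ) (d : ℕ) : (fun m : ℕ => ph y (d * m)) = ph ((d : ℝ) * y) := by
  funext m
  unfold ph
  congr 1
  push_cast
  ring

/-- the normalised correlation on the window `(n, n + H]` -/
noncomputable def cc (a : ℕ → ℂ) (n H : ℕ) (y : ℝ) : ℝ := ws (ph y) a n H / H

lemma cc_nonneg (a : ℕ → ℂ) (n H : ℕ) (y : ℝ) : 0 ≤ cc a n H y :=
  div_nonneg (ws_nonneg _ _ _ _) (Nat.cast_nonneg _)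

lemma cc_le_one (a : ℕ → ℂ) (ha : ∀ n, ‖a n‖ ≤ 1) (n H : ℕ) (y : ℝ) : cc a n H y ≤ 1 := by
  unfold cc
  rcases Nat.eq_zero_or_pos H with h | h
  · subst h; simp
  · rw [div_le_one (by exact_mod_cast h)]
    exact ws_le (ph y) a (norm_ph y) ha n H

lemma cc_mul (a : ℕ → ℂ) (n H : ℕ) (hH : 0 < H) (y : ℝ) : ws (ph y) a n H = cc a n H y * H := by
  unfold cc
  have : (0 : ℝ) < H := by exact_mod_cast hH
  field_simp

/-- a finite set of at most `k` frequencies, away from the rationals with small denominators, and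
separated from each other -/
def Sy (k : ℕ) (Q δ : ℝ) (S : Finset ℝ) : Prop :=
  S.card ≤ k ∧ (∀ y ∈ S, Sq Q δ y) ∧ ∀ y ∈ S, ∀ y' ∈ S, y ≠ y' → δ ≤ nd (y - y')

lemma sy_empty (k : ℕ) (Q δ : ℝ) : Sy k Q δ ∅ :=
  ⟨by simp, by simp, by simp⟩

/-- the largest energy of a system on the window -/
noncomputable def Ph (a : ℕ → ℂ) (k : ℕ) (Q δ : ℝ) (n H : ℕ) : ℝ :=
  sSup {x : ℝ | ∃ S : Finset ℝ, Sy k Q δ S ∧ x = ∑ y ∈ S, (cc a n H y) ^ 2}

lemma en_le (a : ℕ → ℂ) (ha : ∀ n, ‖a n‖ ≤ 1) (k : ℕ) (Q δ : ℝ) (n H : ℕ) (S : Finset ℝ)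
    (hS : Sy k Q δ S) : ∑ y ∈ S, (cc a n H y) ^ 2 ≤ k := by
  calc ∑ y ∈ S, (cc a n H y) ^ 2 ≤ ∑ y ∈ S, (1 : ℝ) := by
        refine sum_le_sum fun y _ => ?_
        exact pow_le_one₀ (cc_nonneg _ _ _ _) (cc_le_one a ha _ _ _)
    _ = S.card := by simp
    _ ≤ k := by exact_mod_cast hS.1

lemma ph_bdd (a : ℕ → ℂ) (ha : ∀ n, ‖a n‖ ≤ 1) (k : ℕ) (Q δ : ℝ) (n H : ℕ) :
    BddAbove {x : ℝ | ∃ S : Finset ℝ, Sy k Q δ S ∧ x = ∑ y ∈ S, (cc a n H y) ^ 2} := by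
  refine ⟨k, ?_⟩
  rintro x ⟨S, hS, rfl⟩
  exact en_le a ha k Q δ n H S hS

lemma le_Ph (a : ℕ → ℂ) (ha : ∀ n, ‖a n‖ ≤ 1) (k : ℕ) (Q δ : ℝ) (n H : ℕ) (S : Finset ℝ)
    (hS : Sy k Q δ S) : ∑ y ∈ S, (cc a n H y) ^ 2 ≤ Ph a k Q δ n H :=
  le_csSup (ph_bdd a ha k Q δ n H) ⟨S, hS, rfl⟩

lemma Ph_le (a : ℕ → ℂ) (k : ℕ) (Q δ : ℝ) (n H : ℕ) (B : ℝ)
    (h : ∀ S : Finset ℝ, Sy k Q δ S → ∑ y ∈ S, (cc a n H y) ^ 2 ≤ B) : Ph a k Q δ n H ≤ B := by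
  have hne : {x : ℝ | ∃ S : Finset ℝ, Sy k Q δ S ∧
      x = ∑ y ∈ S, (cc a n H y) ^ 2}.Nonempty := ⟨_, ∅, sy_empty k Q δ, rfl⟩
  apply csSup_le hne
  rintro x ⟨S, hS, rfl⟩
  exact h S hS

lemma Ph_nonneg (a : ℕ → ℂ) (ha : ∀ n, ‖a n‖ ≤ 1) (k : ℕ) (Q δ : ℝ) (n H : ℕ) :
    0 ≤ Ph a k Q δ n H := by
  have := le_Ph a ha k Q δ n H ∅ (sy_empty k Q δ)
  simpa using this

lemma Ph_le_card (a : ℕ → ℂ) (ha : ∀ n, ‖a n‖ ≤ 1) (k : ℕ) (Q δ : ℝ) (n H : ℕ) :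
    Ph a k Q δ n H ≤ k := Ph_le a k Q δ n H k fun S hS => en_le a ha k Q δ n H S hS

/-- geometric sums -/
lemma geom_nd (x : ℝ) (δ : ℝ) (hδ : 0 < δ) (hx : δ ≤ nd x) (n H : ℕ) :
    ‖∑ h ∈ Icc 1 H, ee (x * ((n + h : ℕ) : ℝ))‖ ≤ 1 / (2 * δ) := by
  have h1 := geom_bound x (x * n) H
  have h2 := nd_le_norm_one_sub_ee x
  have e : ∀ h : ℕ, x * ((n + h : ℕ) : ℝ) = x * h + x * n := fun h => by push_cast; ring
  simp only [e]
  set T := ‖∑ l ∈ Icc 1 H, ee (x * l + x * n)‖ with hT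
  have hT0 : 0 ≤ T := norm_nonneg _
  have h3 : 4 * δ * T ≤ 2 := by
    calc 4 * δ * T ≤ ‖1 - ee x‖ * T := by
          apply mul_le_mul_of_nonneg_right _ hT0
          linarith
      _ ≤ 2 := h1
  rw [le_div_iff₀ (by positivity)]
  linarith

/-- **Bessel inequality** for separated frequencies. -/
lemma bessel (a : ℕ → ℂ) (ha : ∀ n, ‖a n‖ ≤ 1) (S : Finset ℝ) (k : ℕ) (hk : S.card ≤ k) (δ : ℝ)
    (hδ : 0 < δ) (hsep : ∀ y ∈ S, ∀ y' ∈ S, y ≠ y' → δ ≤ nd (y - y')) (n H : ℕ) (hH : 0 < H)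
    (τ : ℝ) (hτ : 0 < τ) (hHτ : (k : ℝ) ^ 2 / (2 * δ * τ ^ 2) ≤ H) :
    ∑ y ∈ S, (cc a n H y) ^ 2 ≤ (∑ h ∈ Icc 1 H, ‖a (n + h)‖ ^ 2) / H + τ := by
  have hHr : (0 : ℝ) < H := by exact_mod_cast hH
  set s : ℝ → ℂ := fun y => ∑ h ∈ Icc 1 H, ph y (n + h) * a (n + h) with hs
  have hsn : ∀ y, ‖s y‖ ≤ H := fun y => norm_window_le (ph y) a (norm_ph y) ha H n
  set E : ℝ := ∑ y ∈ S, ‖s y‖ ^ 2 with hE
  set A : ℝ := ∑ h ∈ Icc 1 H, ‖a (n + h)‖ ^ 2 with hA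
  have hE0 : 0 ≤ E := sum_nonneg fun _ _ => by positivity
  have hA0 : 0 ≤ A := sum_nonneg fun _ _ => by positivity
  have hAH : A ≤ H := by
    calc A ≤ ∑ h ∈ Icc 1 H, (1 : ℝ) := sum_le_sum fun h _ => pow_le_one₀ (norm_nonneg _) (ha _)
      _ = H := by simp
  -- duality
  set g : ℕ → ℂ := fun h => ∑ y ∈ S, (starRingEnd ℂ) (s y) * ph y (n + h) with hg
  have e1 : (E : ℂ) = ∑ h ∈ Icc 1 H, a (n + h) * g h := by
    have h1 : ∀ y, ((‖s y‖ ^ 2 : ℝ) : ℂ) = (starRingEnd ℂ) (s y) * s y := by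
      intro y
      rw [mul_comm, Complex.mul_conj, Complex.normSq_eq_norm_sq]
    rw [hE]
    push_cast
    have h2 : ∑ y ∈ S, ((‖s y‖ : ℂ)) ^ 2 = ∑ y ∈ S, (starRingEnd ℂ) (s y) * s y := by
      refine sum_congr rfl fun y _ => ?_
      have := h1 y
      push_cast at this
      exact this
    rw [h2]
    calc ∑ y ∈ S, (starRingEnd ℂ) (s y) * s y
        = ∑ y ∈ S, ∑ h ∈ Icc 1 H, (starRingEnd ℂ) (s y) * (ph y (n + h) * a (n + h)) := by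
          refine sum_congr rfl fun y _ => ?_
          conv_lhs => rw [hs]
          beta_reduce
          rw [mul_sum]
      _ = ∑ h ∈ Icc 1 H, ∑ y ∈ S, (starRingEnd ℂ) (s y) * (ph y (n + h) * a (n + h)) := sum_comm
      _ = _ := by
          refine sum_congr rfl fun h _ => ?_
          rw [hg]; beta_reduce
          rw [mul_sum]
          refine sum_congr rfl fun y _ => ?_
          ring
  have h3 : E ^ 2 ≤ A * ∑ h ∈ Icc 1 H, ‖g h‖ ^ 2 := by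
    have h4 : E ≤ ∑ h ∈ Icc 1 H, ‖a (n + h)‖ * ‖g h‖ := by
      have h5 : E = ‖(E : ℂ)‖ := by
        rw [Complex.norm_real, Real.norm_eq_abs, abs_of_nonneg hE0]
      rw [h5, e1]
      refine (norm_sum_le _ _).trans (sum_le_sum fun h _ => ?_)
      rw [norm_mul]
    calc E ^ 2 ≤ (∑ h ∈ Icc 1 H, ‖a (n + h)‖ * ‖g h‖) ^ 2 := pow_le_pow_left₀ hE0 h4 2
      _ ≤ _ := sum_mul_sq_le_sq_mul_sq _ _ _
  have h6 : ∑ h ∈ Icc 1 H, ‖g h‖ ^ 2 ≤ H * E + (k : ℝ) ^ 2 * H ^ 2 / (2 * δ) := by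
    have e2 : ((∑ h ∈ Icc 1 H, ‖g h‖ ^ 2 : ℝ) : ℂ) =
        ∑ y ∈ S, ∑ y' ∈ S, (starRingEnd ℂ) (s y) * s y' *
          ∑ h ∈ Icc 1 H, ee ((y - y') * ((n + h : ℕ) : ℝ)) := by
      have h1 : ∀ h, ((‖g h‖ : ℂ)) ^ 2 = g h * (starRingEnd ℂ) (g h) := by
        intro h
        rw [Complex.mul_conj, Complex.normSq_eq_norm_sq]
        push_cast; ring
      push_cast
      calc ∑ h ∈ Icc 1 H, ((‖g h‖ : ℂ)) ^ 2 = ∑ h ∈ Icc 1 H, ∑ y ∈ S, ∑ y' ∈ S,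
            (starRingEnd ℂ) (s y) * s y' * ee ((y - y') * ((n + h : ℕ) : ℝ)) := by
            refine sum_congr rfl fun h _ => ?_
            rw [h1, hg]; beta_reduce
            rw [map_sum, sum_mul_sum]
            refine sum_congr rfl fun y _ => sum_congr rfl fun y' _ => ?_
            rw [map_mul, Complex.conj_conj]
            have e3 : ph y (n + h) * (starRingEnd ℂ) (ph y' (n + h)) =
                ee ((y - y') * ((n + h : ℕ) : ℝ)) := by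
              unfold ph
              rw [← ee_sub]; congr 1; ring
            rw [← e3]; ring
        _ = _ := by
            rw [sum_comm]
            refine sum_congr rfl fun y _ => ?_
            rw [sum_comm]
            refine sum_congr rfl fun y' _ => ?_
            rw [← mul_sum]
            simp only [Nat.cast_add]
    have h7 : ∑ h ∈ Icc 1 H, ‖g h‖ ^ 2 = ‖((∑ h ∈ Icc 1 H, ‖g h‖ ^ 2 : ℝ) : ℂ)‖ := by
      rw [Complex.norm_real, Real.norm_eq_abs, abs_of_nonneg (sum_nonneg fun _ _ => by positivity)]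
    rw [h7, e2]
    have h8 : ∀ y ∈ S, ∀ y' ∈ S, ‖(starRingEnd ℂ) (s y) * s y' *
          ∑ h ∈ Icc 1 H, ee ((y - y') * ((n + h : ℕ) : ℝ))‖ ≤
        (if y = y' then H * ‖s y‖ ^ 2 else 0) + (H : ℝ) ^ 2 / (2 * δ) := by
      intro y hy y' hy'
      rw [norm_mul, norm_mul, RCLike.norm_conj]
      have hp : 0 ≤ (H : ℝ) ^ 2 / (2 * δ) := by positivity
      by_cases hyy : y = y'
      · rw [if_pos hyy, ← hyy]
        have h9 : ‖∑ h ∈ Icc 1 H, ee ((y - y) * ((n + h : ℕ) : ℝ))‖ ≤ H := by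
          refine (norm_sum_le _ _).trans ?_
          simp [norm_ee]
        have h10 : ‖s y‖ * ‖s y‖ * ‖∑ h ∈ Icc 1 H, ee ((y - y) * ((n + h : ℕ) : ℝ))‖ ≤
            ‖s y‖ * ‖s y‖ * H := mul_le_mul_of_nonneg_left h9 (by positivity)
        nlinarith
      · rw [if_neg hyy, zero_add]
        have h9 := geom_nd (y - y') δ hδ (hsep y hy y' hy' hyy) n H
        calc ‖s y‖ * ‖s y'‖ * ‖∑ h ∈ Icc 1 H, ee ((y - y') * ((n + h : ℕ) : ℝ))‖
            ≤ H * H * (1 / (2 * δ)) := by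
              have a1 := hsn y
              have a2 := hsn y'
              gcongr
          _ = _ := by ring
    calc _ ≤ ∑ y ∈ S, ∑ y' ∈ S, ((if y = y' then H * ‖s y‖ ^ 2 else 0) +
          (H : ℝ) ^ 2 / (2 * δ)) := by
          refine (norm_sum_le _ _).trans (sum_le_sum fun y hy => ?_)
          exact (norm_sum_le _ _).trans (sum_le_sum fun y' hy' => h8 y hy y' hy')
      _ = H * E + (S.card : ℝ) ^ 2 * (H ^ 2 / (2 * δ)) := by
          have h9 : ∀ y ∈ S, ∑ y' ∈ S, ((if y = y' then H * ‖s y‖ ^ 2 else 0) +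
              (H : ℝ) ^ 2 / (2 * δ)) = H * ‖s y‖ ^ 2 + S.card * (H ^ 2 / (2 * δ)) := by
            intro y hy
            rw [sum_add_distrib, sum_ite_eq, if_pos hy, sum_const, nsmul_eq_mul]
          rw [sum_congr rfl h9, sum_add_distrib, ← mul_sum, sum_const, nsmul_eq_mul]
          ring
      _ ≤ _ := by
          have hc : (S.card : ℝ) ≤ k := by exact_mod_cast hk
          have : (S.card : ℝ) ^ 2 * (H ^ 2 / (2 * δ)) ≤ (k : ℝ) ^ 2 * (H ^ 2 / (2 * δ)) := by gcongr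
          have e4 : (k : ℝ) ^ 2 * H ^ 2 / (2 * δ) = (k : ℝ) ^ 2 * (H ^ 2 / (2 * δ)) := by ring
          rw [e4]
          linarith
  -- the quadratic inequality
  have h11 : E ^ 2 ≤ A * (H * E) + H * (τ ^ 2 * H * H ^ 2) := by
    have h12 : (k : ℝ) ^ 2 * H ^ 2 / (2 * δ) ≤ τ ^ 2 * H * H ^ 2 := by
      have h13 : (k : ℝ) ^ 2 / (2 * δ) ≤ τ ^ 2 * H := by
        rw [div_le_iff₀ (by positivity)] at hHτ ⊢
        nlinarith
      calc (k : ℝ) ^ 2 * H ^ 2 / (2 * δ) = ((k : ℝ) ^ 2 / (2 * δ)) * H ^ 2 := by ring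
        _ ≤ _ := mul_le_mul_of_nonneg_right h13 (by positivity)
    calc E ^ 2 ≤ A * (H * E + (k : ℝ) ^ 2 * H ^ 2 / (2 * δ)) :=
          h3.trans (mul_le_mul_of_nonneg_left h6 hA0)
      _ ≤ A * (H * E + τ ^ 2 * H * H ^ 2) := by gcongr
      _ = A * (H * E) + A * (τ ^ 2 * H * H ^ 2) := by ring
      _ ≤ _ := by gcongr
  have h14 : E ≤ H * A + τ * H ^ 2 := by
    by_contra hcon
    push Not at hcon
    have h15 : 0 ≤ H * A := by positivity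
    have h16 : 0 < τ * (H : ℝ) ^ 2 := by positivity
    have h17 : (τ * (H : ℝ) ^ 2) ^ 2 < E * (E - H * A) := by
      have : τ * (H : ℝ) ^ 2 < E - H * A := by linarith
      have : τ * (H : ℝ) ^ 2 < E := by linarith
      nlinarith
    nlinarith
  have e5 : ∑ y ∈ S, (cc a n H y) ^ 2 = E / (H : ℝ) ^ 2 := by
    rw [hE, sum_div]
    refine sum_congr rfl fun y _ => ?_
    rw [cc, div_pow]
    rfl
  rw [e5, div_le_iff₀ (by positivity)]
  calc E ≤ H * A + τ * H ^ 2 := h14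
    _ = (A / H + τ) * H ^ 2 := by field_simp

end Pool.Agent.Lib.MP_663568_dch
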