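import Mathlib
import Pool.Agent.Lib.MP_663568_dch.Bes

/-!
# Dilations by products of two primes: separation survives
-/

set_option autoImplicit false
open Finset

namespace Pool.Agent.Lib.MP_663568_dch

open Pool.Agent.Lib.MP_663568_nt Pool.Agent.Lib.MP_663568_nt.Katai
  Pool.Agent.Lib.MP_663568_nt.Nul Pool.Agent.Lib.MP_663568_nt.H6

lemma nd_coprime (m n : ℕ) (hmn : Nat.Coprime m n) (hn : 1 < n) (x : ℝ) :
    nd x ≤ n * nd ((m : ℝ) * x) + m * nd ((n : ℝ) * x) := by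
  obtain ⟨v, hvn, hmv⟩ := Nat.exists_mul_mod_eq_one_of_coprime hmn hn
  obtain ⟨w, hw⟩ : ∃ w : ℕ, w = m * v / n := ⟨_, rfl⟩
  have h1 : m * v = n * w + 1 := by
    have := Nat.div_add_mod (m * v) n
    rw [hmv, ← hw] at this
    exact this.symm
  have hwm : w ≤ m := by
    rw [hw]
    apply Nat.div_le_of_le_mul
    rw [mul_comm n m]
    exact Nat.mul_le_mul_left m hvn.le
  have h2 : x = (v : ℝ) * (m * x) - (w : ℝ) * (n * x) := by
    have : ((m * v : ℕ) : ℝ) = ((n * w + 1 : ℕ) : ℝ) := by rw [h1]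
    push_cast at this
    have e : (v : ℝ) * (m * x) - (w : ℝ) * (n * x) = (m * v - n * w) * x := by ring
    rw [e, this]; ring
  have h3 : (v : ℝ) ≤ n := by exact_mod_cast hvn.le
  have h4 : (w : ℝ) ≤ m := by exact_mod_cast hwm
  calc nd x = nd ((v : ℝ) * (m * x) - (w : ℝ) * (n * x)) := by rw [← h2]
    _ ≤ nd ((v : ℝ) * (m * x)) + nd ((w : ℝ) * (n * x)) := nd_sub_le _ _
    _ ≤ v * nd (m * x) + w * nd (n * x) := add_le_add (nd_nat_mul_le _ _) (nd_nat_mul_le _ _)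
    _ ≤ _ := by
        have := nd_nonneg ((m : ℝ) * x)
        have := nd_nonneg ((n : ℝ) * x)
        gcongr

open Classical in
/-- **Separation survives the dilation by most products of two primes.** -/
lemma few_close (P P' : Finset ℕ) (hP : ∀ p ∈ P, p.Prime) (hP' : ∀ p ∈ P', p.Prime) (P₀ : ℕ)
    (hP₀0 : 0 < P₀) (hP₀ : ∀ p ∈ P, P₀ ≤ p) (hP₀' : ∀ p ∈ P', P₀ ≤ p) (Z : ℝ)
    (hZ : ∀ p ∈ P, (p : ℝ) ≤ Z) (hZ' : ∀ p ∈ P', (p : ℝ) ≤ Z) (δ δ' x : ℝ) (hx : δ ≤ nd x)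
    (hδ' : 2 * Z ^ 2 * δ' < δ) :
    ∑ z ∈ P ×ˢ P', 1 / ((z.1 : ℝ) * z.2) *
      (if δ' ≤ nd ((z.1 : ℝ) * z.2 * x) then (0 : ℝ) else 1) ≤ 2 / P₀ * (WW P + WW P') := by
  have hw : ∀ z : ℕ × ℕ, 0 ≤ 1 / ((z.1 : ℝ) * z.2) := fun z => by positivity
  have hP₀r : (0 : ℝ) < P₀ := by exact_mod_cast hP₀0
  set B : Finset (ℕ × ℕ) := (P ×ˢ P').filter fun z => ¬ δ' ≤ nd ((z.1 : ℝ) * z.2 * x) with hB
  have e1 : ∑ z ∈ P ×ˢ P', 1 / ((z.1 : ℝ) * z.2) *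
      (if δ' ≤ nd ((z.1 : ℝ) * z.2 * x) then (0 : ℝ) else 1) =
      ∑ z ∈ B, 1 / ((z.1 : ℝ) * z.2) := by
    rw [hB, sum_filter]
    refine sum_congr rfl fun z _ => ?_
    by_cases h : δ' ≤ nd ((z.1 : ℝ) * z.2 * x)
    · rw [if_pos h, if_neg (not_not.mpr h), mul_zero]
    · rw [if_neg h, if_pos h, mul_one]
  rw [e1]
  rcases B.eq_empty_or_nonempty with hBe | ⟨z₀, hz₀⟩
  · rw [hBe, sum_empty]
    have := WW_nonneg P
    have := WW_nonneg P'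
    positivity
  have hz₀' := hz₀
  rw [hB, mem_filter, mem_product] at hz₀
  obtain ⟨⟨hp₀, hq₀⟩, hc₀⟩ := hz₀
  push Not at hc₀
  -- two elements share a prime
  have hshare : ∀ z ∈ B, (z.1 = z₀.1 ∨ z.1 = z₀.2) ∨ (z.2 = z₀.1 ∨ z.2 = z₀.2) := by
    intro z hz
    rw [hB, mem_filter, mem_product] at hz
    obtain ⟨⟨hp, hq⟩, hc⟩ := hz
    push Not at hc
    by_contra hcon
    push Not at hcon
    obtain ⟨⟨h1, h2⟩, h3, h4⟩ := hcon
    have hcop : Nat.Coprime (z.1 * z.2) (z₀.1 * z₀.2) := by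
      apply Nat.Coprime.mul_left
      · apply Nat.Coprime.mul_right
        · exact (Nat.coprime_primes (hP _ hp) (hP _ hp₀)).mpr h1
        · exact (Nat.coprime_primes (hP _ hp) (hP' _ hq₀)).mpr h2
      · apply Nat.Coprime.mul_right
        · exact (Nat.coprime_primes (hP' _ hq) (hP _ hp₀)).mpr h3
        · exact (Nat.coprime_primes (hP' _ hq) (hP' _ hq₀)).mpr h4
    have hbig : 1 < z₀.1 * z₀.2 := by
      have h5 := (hP _ hp₀).one_lt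
      have h6 := (hP' _ hq₀).one_lt
      nlinarith
    have h7 := nd_coprime (z.1 * z.2) (z₀.1 * z₀.2) hcop hbig x
    push_cast at h7
    have hZp : ((z.1 : ℝ) * z.2) ≤ Z ^ 2 := by
      have a1 := hZ _ hp
      have a2 := hZ' _ hq
      have a3 : (0 : ℝ) ≤ z.1 := Nat.cast_nonneg _
      have a4 : (0 : ℝ) ≤ z.2 := Nat.cast_nonneg _
      calc (z.1 : ℝ) * z.2 ≤ Z * Z := mul_le_mul a1 a2 a4 (by linarith)
        _ = Z ^ 2 := by ring
    have hZp₀ : ((z₀.1 : ℝ) * z₀.2) ≤ Z ^ 2 := by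
      have a1 := hZ _ hp₀
      have a2 := hZ' _ hq₀
      have a3 : (0 : ℝ) ≤ z₀.1 := Nat.cast_nonneg _
      have a4 : (0 : ℝ) ≤ z₀.2 := Nat.cast_nonneg _
      calc (z₀.1 : ℝ) * z₀.2 ≤ Z * Z := mul_le_mul a1 a2 a4 (by linarith)
        _ = Z ^ 2 := by ring
    have h8 : (z₀.1 : ℝ) * z₀.2 * nd ((z.1 : ℝ) * z.2 * x) ≤ Z ^ 2 * δ' :=
      mul_le_mul hZp₀ hc.le (nd_nonneg _) (by positivity)
    have h9 : (z.1 : ℝ) * z.2 * nd ((z₀.1 : ℝ) * z₀.2 * x) ≤ Z ^ 2 * δ' :=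
      mul_le_mul hZp hc₀.le (nd_nonneg _) (by positivity)
    linarith
  -- the weight of the pairs containing a given prime
  have hfst : ∀ r : ℕ, P₀ ≤ r → ∑ z ∈ (P ×ˢ P').filter (fun z => z.1 = r),
      1 / ((z.1 : ℝ) * z.2) ≤ 1 / P₀ * WW P' := by
    intro r hr
    have hrr : (P₀ : ℝ) ≤ r := by exact_mod_cast hr
    rw [sum_filter, sum_product]
    calc ∑ p ∈ P, ∑ q ∈ P', (if p = r then 1 / ((p : ℝ) * q) else 0)
        = ∑ p ∈ P, (if p = r then (1 / (r : ℝ)) * WW P' else 0) := by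
          refine sum_congr rfl fun p _ => ?_
          by_cases h : p = r
          · simp only [if_pos h]
            rw [WW, mul_sum, h]
            exact sum_congr rfl fun q _ => by rw [one_div_mul_one_div]
          · simp only [if_neg h, sum_const_zero]
      _ ≤ (1 / (r : ℝ)) * WW P' := by
          rw [sum_ite_eq']
          have : 0 ≤ (1 / (r : ℝ)) * WW P' := mul_nonneg (by positivity) (WW_nonneg _)
          split_ifs
          · exact le_rfl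
          · exact this
      _ ≤ _ := mul_le_mul_of_nonneg_right (one_div_le_one_div_of_le hP₀r hrr) (WW_nonneg _)
  have hsnd : ∀ r : ℕ, P₀ ≤ r → ∑ z ∈ (P ×ˢ P').filter (fun z => z.2 = r),
      1 / ((z.1 : ℝ) * z.2) ≤ 1 / P₀ * WW P := by
    intro r hr
    have hrr : (P₀ : ℝ) ≤ r := by exact_mod_cast hr
    rw [sum_filter, sum_product_right]
    calc ∑ q ∈ P', ∑ p ∈ P, (if q = r then 1 / ((p : ℝ) * q) else 0)
        = ∑ q ∈ P', (if q = r then (1 / (r : ℝ)) * WW P else 0) := by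
          refine sum_congr rfl fun q _ => ?_
          by_cases h : q = r
          · simp only [if_pos h]
            rw [WW, mul_sum, h]
            exact sum_congr rfl fun p _ => by rw [one_div_mul_one_div, mul_comm]
          · simp only [if_neg h, sum_const_zero]
      _ ≤ (1 / (r : ℝ)) * WW P := by
          rw [sum_ite_eq']
          have : 0 ≤ (1 / (r : ℝ)) * WW P := mul_nonneg (by positivity) (WW_nonneg _)
          split_ifs
          · exact le_rfl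
          · exact this
      _ ≤ _ := mul_le_mul_of_nonneg_right (one_div_le_one_div_of_le hP₀r hrr) (WW_nonneg _)
  have h1 : P₀ ≤ z₀.1 := hP₀ _ hp₀
  have h2 : P₀ ≤ z₀.2 := hP₀' _ hq₀
  have hsub : B ⊆ ((P ×ˢ P').filter (fun z => z.1 = z₀.1) ∪ (P ×ˢ P').filter (fun z => z.1 = z₀.2)) ∪
      ((P ×ˢ P').filter (fun z => z.2 = z₀.1) ∪ (P ×ˢ P').filter (fun z => z.2 = z₀.2)) := by
    intro z hz
    have h3 := hshare z hz
    rw [hB, mem_filter] at hz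
    simp only [mem_union, mem_filter]
    tauto
  have hun : ∀ S T : Finset (ℕ × ℕ), ∑ z ∈ S ∪ T, 1 / ((z.1 : ℝ) * z.2) ≤
      ∑ z ∈ S, 1 / ((z.1 : ℝ) * z.2) + ∑ z ∈ T, 1 / ((z.1 : ℝ) * z.2) := by
    intro S T
    have := sum_union_inter (s₁ := S) (s₂ := T) (f := fun z : ℕ × ℕ => 1 / ((z.1 : ℝ) * z.2))
    have h0 : 0 ≤ ∑ z ∈ S ∩ T, 1 / ((z.1 : ℝ) * z.2) := sum_nonneg fun z _ => hw z
    linarith
  calc ∑ z ∈ B, 1 / ((z.1 : ℝ) * z.2) ≤ _ :=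
        sum_le_sum_of_subset_of_nonneg hsub fun z _ _ => hw z
    _ ≤ _ := hun _ _
    _ ≤ (1 / P₀ * WW P' + 1 / P₀ * WW P') + (1 / P₀ * WW P + 1 / P₀ * WW P) :=
        add_le_add ((hun _ _).trans (add_le_add (hfst _ h1) (hfst _ h2)))
          ((hun _ _).trans (add_le_add (hsnd _ h1) (hsnd _ h2)))
    _ = _ := by ring

open Classical in
/-- the distance to the rationals with small denominators survives, too -/
lemma few_sq (P P' : Finset ℕ) (hP : ∀ p ∈ P, p.Prime) (hP' : ∀ p ∈ P', p.Prime) (P₀ : ℕ)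
    (hP₀0 : 0 < P₀) (hP₀ : ∀ p ∈ P, P₀ ≤ p) (hP₀' : ∀ p ∈ P', P₀ ≤ p) (Z : ℝ)
    (hZ : ∀ p ∈ P, (p : ℝ) ≤ Z) (hZ' : ∀ p ∈ P', (p : ℝ) ≤ Z) (Q δ δ' y : ℝ) (hQ : 0 ≤ Q)
    (hy : Sq Q δ y) (hδ' : 2 * Z ^ 2 * δ' < δ) :
    ∑ z ∈ P ×ˢ P', 1 / ((z.1 : ℝ) * z.2) *
      (if Sq Q δ' ((z.1 : ℝ) * z.2 * y) then (0 : ℝ) else 1) ≤
        Q * (2 / P₀ * (WW P + WW P')) := by
  have hw : ∀ z : ℕ × ℕ, 0 ≤ 1 / ((z.1 : ℝ) * z.2) := fun z => by positivity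
  have h1 : ∀ z : ℕ × ℕ, (if Sq Q δ' ((z.1 : ℝ) * z.2 * y) then (0 : ℝ) else 1) ≤
      ∑ q ∈ Icc 1 ⌊Q⌋₊, (if δ' ≤ nd ((z.1 : ℝ) * z.2 * ((q : ℝ) * y)) then (0 : ℝ) else 1) := by
    intro z
    by_cases h : Sq Q δ' ((z.1 : ℝ) * z.2 * y)
    · rw [if_pos h]
      exact sum_nonneg fun q _ => by split_ifs <;> norm_num
    · rw [if_neg h]
      rw [Sq] at h
      push Not at h
      obtain ⟨q, hq1, hq2, hq3⟩ := h
      have hqm : q ∈ Icc 1 ⌊Q⌋₊ := by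
        rw [mem_Icc]; exact ⟨hq1, Nat.le_floor hq2⟩
      refine le_trans ?_ (single_le_sum (f := fun q : ℕ =>
        if δ' ≤ nd ((z.1 : ℝ) * z.2 * ((q : ℝ) * y)) then (0 : ℝ) else 1)
        (fun q _ => by split_ifs <;> norm_num) hqm)
      have e : (z.1 : ℝ) * z.2 * ((q : ℝ) * y) = (q : ℝ) * ((z.1 : ℝ) * z.2 * y) := by ring
      rw [e, if_neg (not_le.mpr hq3)]
  have h0 : 0 ≤ 2 / (P₀ : ℝ) * (WW P + WW P') := by
    have := WW_nonneg P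
    have := WW_nonneg P'
    positivity
  calc _ ≤ ∑ z ∈ P ×ˢ P', 1 / ((z.1 : ℝ) * z.2) *
        ∑ q ∈ Icc 1 ⌊Q⌋₊, (if δ' ≤ nd ((z.1 : ℝ) * z.2 * ((q : ℝ) * y)) then (0 : ℝ) else 1) :=
        sum_le_sum fun z _ => mul_le_mul_of_nonneg_left (h1 z) (hw z)
    _ = ∑ q ∈ Icc 1 ⌊Q⌋₊, ∑ z ∈ P ×ˢ P', 1 / ((z.1 : ℝ) * z.2) *
        (if δ' ≤ nd ((z.1 : ℝ) * z.2 * ((q : ℝ) * y)) then (0 : ℝ) else 1) := by
        rw [sum_comm]
        exact sum_congr rfl fun z _ => mul_sum _ _ _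
    _ ≤ ∑ q ∈ Icc 1 ⌊Q⌋₊, 2 / (P₀ : ℝ) * (WW P + WW P') := by
        refine sum_le_sum fun q hq => ?_
        rw [mem_Icc] at hq
        refine few_close P P' hP hP' P₀ hP₀0 hP₀ hP₀' Z hZ hZ' δ δ' ((q : ℝ) * y) ?_ hδ'
        exact hy q hq.1 (le_trans (by exact_mod_cast hq.2) (Nat.floor_le hQ))
    _ = ⌊Q⌋₊ * (2 / (P₀ : ℝ) * (WW P + WW P')) := by
        rw [sum_const, Nat.card_Icc, Nat.add_sub_cancel, nsmul_eq_mul]
    _ ≤ _ := mul_le_mul_of_nonneg_right (Nat.floor_le hQ) h0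

end Pool.Agent.Lib.MP_663568_dch
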