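import Mathlib
import Pool.Agent.Lib.MP_663568_dch.Gcd

/-!
# Most products of two primes carry a frequency away from a given set
-/

set_option autoImplicit false
open Finset MeasureTheory

namespace Pool.Agent.Lib.MP_663568_dch

open Pool.Agent.Lib.MP_663568_nt Pool.Agent.Lib.MP_663568_nt.Katai
  Pool.Agent.Lib.MP_663568_nt.Nul Pool.Agent.Lib.MP_663568_nt.H6

/-- the measure of the complement -/
lemma compl_vol (A : Set ℝ) (R v : ℝ) (hv0 : 0 ≤ v) (hR : 1 ≤ R)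
    (hv : volume {y : ℝ | y ∈ Set.Icc (0 : ℝ) 1 ∧ ∃ α ∈ A, nd (α - y) ≤ 1 / R} ≤
      ENNReal.ofReal v) :
    1 - v ≤ (volume {x : Unit → ℝ | x ∈ Set.Icc (0 : Unit → ℝ) 1 ∧ ∀ y : Unit → ℝ,
      (∀ s, |y s - x s| ≤ 1 / (2 * R)) →
      ∃ z : Unit → ℤ, (fun s => y s + z s) ∈ {x : Unit → ℝ | ∀ α ∈ A,
        1 / (2 * R) < nd (α - x ())}}).toReal := by
  have hR0 : 0 < R := by linarith
  set T : Set (Unit → ℝ) := {x : Unit → ℝ | x ∈ Set.Icc (0 : Unit → ℝ) 1 ∧ ∀ y : Unit → ℝ,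
      (∀ s, |y s - x s| ≤ 1 / (2 * R)) →
      ∃ z : Unit → ℤ, (fun s => y s + z s) ∈ {x : Unit → ℝ | ∀ α ∈ A,
        1 / (2 * R) < nd (α - x ())}} with hT
  set Bd : Set ℝ := {y : ℝ | y ∈ Set.Icc (0 : ℝ) 1 ∧ ∃ α ∈ A, nd (α - y) ≤ 1 / R} with hBd
  have hmp := volume_preserving_funUnique Unit ℝ
  have hpre : volume ((MeasurableEquiv.funUnique Unit ℝ) ⁻¹' Bd) = volume Bd :=
    hmp.measure_preimage_equiv Bd
  have hsub : Set.Icc (0 : Unit → ℝ) 1 ⊆ T ∪ (MeasurableEquiv.funUnique Unit ℝ) ⁻¹' Bd := by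
    intro x hx
    by_cases h : x () ∈ Bd
    · right; exact h
    · left
      refine ⟨hx, fun y hy => ⟨0, fun α hα => ?_⟩⟩
      have h1 : 1 / R < nd (α - x ()) := by
        by_contra hcon
        push Not at hcon
        exact h ⟨⟨hx.1 (), hx.2 ()⟩, α, hα, hcon⟩
      have h2 := nd_le_add_abs (α - x ()) (α - y ())
      have h3 := hy ()
      have e : α - x () - (α - y ()) = y () - x () := by ring
      rw [e] at h2
      have h4 : 1 / R = 1 / (2 * R) + 1 / (2 * R) := by field_simp; norm_num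
      simp only [Pi.zero_apply, Int.cast_zero, add_zero]
      linarith
  have hone : volume (Set.Icc (0 : Unit → ℝ) 1) = 1 := by
    rw [Real.volume_Icc_pi]; simp
  have h1 : (1 : ENNReal) ≤ volume T + ENNReal.ofReal v := by
    rw [← hone]
    refine (measure_mono hsub).trans ((measure_union_le _ _).trans ?_)
    rw [hpre]
    exact add_le_add le_rfl hv
  have hTf : volume T ≠ ⊤ := by
    have : volume T ≤ 1 := by
      rw [← hone]; exact measure_mono fun x hx => hx.1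
    exact ne_top_of_le_ne_top ENNReal.one_ne_top this
  have h2 : (1 : ENNReal).toReal ≤ (volume T + ENNReal.ofReal v).toReal :=
    ENNReal.toReal_mono (ENNReal.add_ne_top.mpr ⟨hTf, ENNReal.ofReal_ne_top⟩) h1
  rw [ENNReal.toReal_add hTf ENNReal.ofReal_ne_top, ENNReal.toReal_one,
    ENNReal.toReal_ofReal hv0] at h2
  linarith

/-- **Most products of two primes carry a frequency away from a given set.** -/
theorem equ_lower (P₀ : ℕ) (W₀ η : ℝ) (hη : 0 < η) (hη1 : η ≤ 1) :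
    ∃ B : ℕ, 1 ≤ B ∧ ∀ R : ℝ, 1 ≤ R → ∀ δ : ℝ, 0 < δ → δ ≤ 1 →
    ∃ P P' : Finset ℕ, (∀ p ∈ P, p.Prime ∧ P₀ ≤ p) ∧ (∀ p ∈ P', p.Prime ∧ P₀ ≤ p) ∧
      W₀ ≤ WW P ∧ W₀ ≤ WW P' ∧
      ∀ (A : Set ℝ) (v : ℝ), 0 ≤ v →
        volume {y : ℝ | y ∈ Set.Icc (0 : ℝ) 1 ∧ ∃ α ∈ A, nd (α - y) ≤ 1 / R} ≤
          ENNReal.ofReal v →
        ∃ φ : ℝ → ℝ, (∀ x, 0 ≤ φ x) ∧ (∀ x, φ x ≤ 1) ∧
          (∀ x, φ x ≠ 0 → ∀ α ∈ A, 1 / (2 * R) < nd (α - x)) ∧
          ∀ y, Sq (B * (2 * R) ^ B) δ y → (1 - v - η) * (WW P * WW P') ≤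
            ∑ z ∈ P ×ˢ P', 1 / ((z.1 : ℝ) * z.2) * φ ((z.1 : ℝ) * z.2 * y) := by
  obtain ⟨B, hB, hmain⟩ := equiq (σ := Unit) (fun _ => 1) (fun _ => le_rfl) P₀ W₀ η hη hη1
  refine ⟨B, hB, fun R hR δ hδ hδ1 => ?_⟩
  have h2R : 1 ≤ 2 * R := by linarith
  obtain ⟨P, P', hP, hP', hW, hW', hE⟩ := hmain (2 * R) h2R δ hδ hδ1
  refine ⟨P, P', fun p hp => ⟨(hP p hp).1, (hP p hp).2.1⟩, fun p hp => ⟨(hP' p hp).1,
    (hP' p hp).2.1⟩, hW, hW', fun A v hv0 hv => ?_⟩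
  obtain ⟨φ, hφc, hφ0, hφ1, hφL, hφs, hφi⟩ := bump (σ := Unit) {x : Unit → ℝ | ∀ α ∈ A,
        1 / (2 * R) < nd (α - x ())} (2 * R) h2R
  have hint := (compl_vol A R v hv0 hR hv).trans hφi
  refine ⟨fun x => φ fun _ => x, fun x => hφ0 _, fun x => hφ1 _, fun x hx α hα => ?_,
    fun y hy => ?_⟩
  · obtain ⟨z, hz⟩ := hφs _ hx
    have h1 := hz α hα
    simp only at h1
    have e : α - (x + (z () : ℝ)) = α - x - z () := by ring
    rw [e, nd_sub_int] at h1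
    exact h1
  · have hM : Mnr (fun _ : Unit => 1) (B * (2 * R) ^ B) δ (fun _ => y) := by
      intro k hk hkQ _ m
      have hk0 : k () ≠ 0 := fun h => hk (by funext s; exact h)
      have h1 : Sq (B * (2 * R) ^ B) δ y := hy
      have h2 := h1 (k ()).natAbs (by omega) (by
        have := hkQ ()
        rw [Nat.cast_natAbs]
        push_cast
        exact this)
      have h3 : nd (((k ()).natAbs : ℝ) * y) = nd ((k () : ℝ) * y) := by
        rw [Nat.cast_natAbs]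
        push_cast
        rcases abs_cases (k () : ℝ) with ⟨h, _⟩ | ⟨h, _⟩
        · rw [h]
        · rw [h, neg_mul, nd_neg]
      rw [h3] at h2
      refine h2.trans ((nd_le _ m).trans (le_of_eq ?_))
      simp
    have h4 := hE (fun _ => y) hM φ hφc hφ0 hφ1 hφL
    refine le_trans ?_ (h4.trans (le_of_eq ?_))
    · apply mul_le_mul_of_nonneg_right _ (mul_nonneg (WW_nonneg _) (WW_nonneg _))
      linarith
    · refine sum_congr rfl fun z _ => ?_
      congr 2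
      funext s
      rw [pow_one]

end Pool.Agent.Lib.MP_663568_dch
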