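import Mathlib
import Pool.Agent.Lib.MP_663568_dch.Equ

/-!
# The increment of the energy for one window
-/

set_option autoImplicit false
open Finset

namespace Pool.Agent.Lib.MP_663568_dch

open Pool.Agent.Lib.MP_663568_nt Pool.Agent.Lib.MP_663568_nt.Katai
  Pool.Agent.Lib.MP_663568_nt.Nul Pool.Agent.Lib.MP_663568_nt.H6

/-- the square of the largest normalised correlation with a frequency in `T` -/
noncomputable def qa (a : ℕ → ℂ) (T : Set ℝ) (n H : ℕ) : ℝ := (GS ph a T H n / H) ^ 2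

lemma qa_nonneg (a : ℕ → ℂ) (T : Set ℝ) (n H : ℕ) : 0 ≤ qa a T n H := sq_nonneg _

lemma gs_div_le (a : ℕ → ℂ) (ha : ∀ n, ‖a n‖ ≤ 1) (T : Set ℝ) (n H : ℕ) : GS ph a T H n / H ≤ 1 := by
  rcases Nat.eq_zero_or_pos H with h | h
  · subst h; simp
  · rw [div_le_one (by exact_mod_cast h)]
    exact GS_le ph a norm_ph ha T H n

lemma gs_div_nonneg (a : ℕ → ℂ) (T : Set ℝ) (n H : ℕ) : 0 ≤ GS ph a T H n / H :=
  div_nonneg (GS_nonneg _ _ _ _ _) (Nat.cast_nonneg _)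

lemma qa_le_one (a : ℕ → ℂ) (ha : ∀ n, ‖a n‖ ≤ 1) (T : Set ℝ) (n H : ℕ) : qa a T n H ≤ 1 :=
  pow_le_one₀ (gs_div_nonneg _ _ _ _) (gs_div_le a ha T n H)

lemma qa_le (a : ℕ → ℂ) (T : Set ℝ) (n H : ℕ) (hH : 0 < H) (B : ℝ) (hB : 0 ≤ B)
    (h : ∀ y ∈ T, (cc a n H y) ^ 2 ≤ B) : qa a T n H ≤ B := by
  have hHr : (0 : ℝ) < H := by exact_mod_cast hH
  have h1 : GS ph a T H n ≤ √B * H := by
    rw [GS, GG]
    apply Real.iSup_le
    · rintro ⟨y, hy⟩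
      have h2 : cc a n H y ≤ √B := Real.le_sqrt_of_sq_le (h y hy)
      have h3 := cc_mul a n H hH y
      change ws (ph y) a n H ≤ _
      rw [h3]
      exact mul_le_mul_of_nonneg_right h2 hHr.le
    · positivity
  have h2 : GS ph a T H n / H ≤ √B := by rwa [div_le_iff₀ hHr]
  calc qa a T n H ≤ √B ^ 2 := pow_le_pow_left₀ (gs_div_nonneg _ _ _ _) h2 2
    _ = B := Real.sq_sqrt hB

lemma mul_Ph_le (a : ℕ → ℂ) (k : ℕ) (Q δ : ℝ) (n H : ℕ) (c B : ℝ) (hc : 0 ≤ c)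
    (h : ∀ S : Finset ℝ, Sy k Q δ S → c * ∑ y ∈ S, (cc a n H y) ^ 2 ≤ B) :
    c * Ph a k Q δ n H ≤ B := by
  rcases hc.eq_or_lt with h0 | h0
  · have := h ∅ (sy_empty k Q δ)
    rw [← h0] at this ⊢
    simpa using this
  · rw [mul_comm, ← le_div_iff₀ h0]
    apply Ph_le
    intro S hS
    rw [le_div_iff₀ h0, mul_comm]
    exact h S hS

open Classical in
/-- **The increment of the energy for one window.** -/
theorem one_win (a : ℕ → ℂ) (ha : ∀ n, ‖a n‖ ≤ 1) (hmul : Mult a)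
    (P P' : Finset ℕ) (hP : ∀ p ∈ P, p.Prime) (hP' : ∀ p ∈ P', p.Prime) (P₀ : ℕ)
    (hP₀0 : 0 < P₀) (hP₀ : ∀ p ∈ P, P₀ ≤ p) (hP₀' : ∀ p ∈ P', P₀ ≤ p) (Z : ℝ)
    (hZ : ∀ p ∈ P, (p : ℝ) ≤ Z) (hZ' : ∀ p ∈ P', (p : ℝ) ≤ Z) (η : ℝ) (hη : 0 < η)
    (hη8 : 8 / η ≤ P₀) (k : ℕ) (Q δ Q' δ' : ℝ) (hQ'0 : 0 ≤ Q') (hQQ : Q' ≤ Q)
    (hδδ : 2 * Z ^ 2 * δ' < δ)
    (T : Set ℝ) (hT : ∀ y ∈ T, Sq Q' δ' y) (φ : ℝ → ℝ) (hφ0 : ∀ x, 0 ≤ φ x) (hφ1 : ∀ x, φ x ≤ 1)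
    (hφT : ∀ x, φ x ≠ 0 → ∀ α ∈ T, δ' ≤ nd (α - x)) (hδ'0 : 0 < δ')
    (v : ℝ) (hv0 : 0 ≤ v) (hv1 : v ≤ 1)
    (hφy : ∀ y, Sq Q δ y → (1 - v - η) * (WW P * WW P') ≤
      ∑ z ∈ P ×ˢ P', 1 / ((z.1 : ℝ) * z.2) * φ ((z.1 : ℝ) * z.2 * y))
    (n H : ℕ) (hH : LongH P P' η H) (hHz : ∀ z ∈ P ×ˢ P', 0 < H / z.1 / z.2) :
    (1 - v) * (WW P * WW P') * Ph a k Q δ n H +
      ∑ z ∈ P ×ˢ P', 1 / ((z.1 : ℝ) * z.2) * qa a T (n / z.1 / z.2) (H / z.1 / z.2) ≤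
    ∑ z ∈ P ×ˢ P', 1 / ((z.1 : ℝ) * z.2) * Ph a (k + 1) Q' δ' (n / z.1 / z.2) (H / z.1 / z.2) +
      (5 * η * k * (WW P * WW P') + (k + 1) * (k * (8 / η ^ 2 * (WW P + WW P')) +
        (k ^ 2 + k * Q') * (2 / P₀ * (WW P + WW P')))) := by
  have hw : ∀ z : ℕ × ℕ, 0 ≤ 1 / ((z.1 : ℝ) * z.2) := fun z => by positivity
  have hWP := WW_nonneg P
  have hWP' := WW_nonneg P'
  have hH0 := hH.1
  have hHr : (0 : ℝ) < H := by exact_mod_cast hH0
  set W : ℝ := WW P * WW P' with hWd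
  have hW0 : 0 ≤ W := mul_nonneg hWP hWP'
  rw [← le_sub_iff_add_le]
  refine mul_Ph_le a k Q δ n H ((1 - v) * W) _ (mul_nonneg (by linarith) hW0) fun S hS => ?_
  rw [le_sub_iff_add_le]
  obtain ⟨hSk, hSq, hSs⟩ := hS
  have hSkr : (S.card : ℝ) ≤ k := by exact_mod_cast hSk
  set m : ℝ → ℝ := fun y => max 0 (cc a n H y - 2 * η) with hm
  have hm0 : ∀ y, 0 ≤ m y := fun y => le_max_left _ _
  have hm1 : ∀ y, m y ≤ 1 := fun y => max_le zero_le_one (by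
    have := cc_le_one a ha n H y; linarith)
  have hmsq : ∀ y, (cc a n H y) ^ 2 - 4 * η ≤ (m y) ^ 2 := by
    intro y
    have h1 := cc_le_one a ha n H y
    have h0 := cc_nonneg a n H y
    rcases le_total 0 (cc a n H y - 2 * η) with h | h
    · have e : m y = cc a n H y - 2 * η := max_eq_right h
      rw [e]; nlinarith
    · have e : m y = 0 := max_eq_left h
      rw [e]; nlinarith
  set b₁ : ℝ → ℕ × ℕ → ℝ := fun y z =>
    if 2 * η ≤ cc a n H y ∧ z ∈ badpp P P' (ph y) a η (cc a n H y) n H then 1 else 0 with hb₁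
  set b₂ : ℝ → ℝ → ℕ × ℕ → ℝ := fun y y' z =>
    if y ≠ y' then (if δ' ≤ nd ((z.1 : ℝ) * z.2 * (y - y')) then (0 : ℝ) else 1) else 0 with hb₂
  set b₃ : ℝ → ℕ × ℕ → ℝ := fun y z =>
    if Sq Q' δ' ((z.1 : ℝ) * z.2 * y) then (0 : ℝ) else 1 with hb₃
  set bb : ℕ × ℕ → ℝ := fun z => ∑ y ∈ S, b₁ y z + ∑ y ∈ S, ∑ y' ∈ S, b₂ y y' z +
    ∑ y ∈ S, b₃ y z with hbb
  have hb₁0 : ∀ y z, 0 ≤ b₁ y z := fun y z => by rw [hb₁]; beta_reduce; split_ifs <;> norm_num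
  have hb₂0 : ∀ y y' z, 0 ≤ b₂ y y' z := fun y y' z => by
    rw [hb₂]; beta_reduce; split_ifs <;> norm_num
  have hb₃0 : ∀ y z, 0 ≤ b₃ y z := fun y z => by rw [hb₃]; beta_reduce; split_ifs <;> norm_num
  have hb1s : ∀ z, 0 ≤ ∑ y ∈ S, b₁ y z := fun z => sum_nonneg fun y _ => hb₁0 y z
  have hb2s : ∀ z, 0 ≤ ∑ y ∈ S, ∑ y' ∈ S, b₂ y y' z := fun z =>
    sum_nonneg fun y _ => sum_nonneg fun y' _ => hb₂0 y y' z
  have hb3s : ∀ z, 0 ≤ ∑ y ∈ S, b₃ y z := fun z => sum_nonneg fun y _ => hb₃0 y z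
  have hbb0 : ∀ z, 0 ≤ bb z := fun z => by
    have h1 := hb1s z
    have h2 := hb2s z
    have h3 := hb3s z
    rw [hbb]; beta_reduce; linarith
  -- pointwise inequality
  have hpt : ∀ z ∈ P ×ˢ P', ∑ y ∈ S, φ ((z.1 : ℝ) * z.2 * y) * (m y) ^ 2 +
      qa a T (n / z.1 / z.2) (H / z.1 / z.2) ≤
      Ph a (k + 1) Q' δ' (n / z.1 / z.2) (H / z.1 / z.2) + (k + 1) * bb z := by
    intro z hz
    have hz' := hz
    rw [mem_product] at hz
    have hq1 := qa_le_one a ha T (n / z.1 / z.2) (H / z.1 / z.2)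
    have hP0 := Ph_nonneg a ha (k + 1) Q' δ' (n / z.1 / z.2) (H / z.1 / z.2)
    have hs1 : ∑ y ∈ S, φ ((z.1 : ℝ) * z.2 * y) * (m y) ^ 2 ≤ k := by
      calc _ ≤ ∑ y ∈ S, (1 : ℝ) := sum_le_sum fun y _ => by
            calc φ ((z.1 : ℝ) * z.2 * y) * (m y) ^ 2 ≤ 1 * 1 :=
                  mul_le_mul (hφ1 _) (pow_le_one₀ (hm0 _) (hm1 _)) (by positivity) zero_le_one
              _ = 1 := by ring
        _ = S.card := by simp
        _ ≤ k := hSkr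
    by_cases hbz : 1 ≤ bb z
    · have : (k : ℝ) + 1 ≤ (k + 1) * bb z := by
        have : (0 : ℝ) ≤ (k : ℝ) + 1 := by positivity
        nlinarith
      linarith
    push Not at hbz
    have h1s := hb1s z
    have h2s := hb2s z
    have h3s := hb3s z
    have hg1 : ∀ y ∈ S, 2 * η ≤ cc a n H y → z ∉ badpp P P' (ph y) a η (cc a n H y) n H := by
      intro y hy hxy hcon
      have h1 : b₁ y z = 1 := by rw [hb₁]; beta_reduce; rw [if_pos ⟨hxy, hcon⟩]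
      have h2 : b₁ y z ≤ ∑ y ∈ S, b₁ y z := single_le_sum (f := fun y => b₁ y z)
        (fun y _ => hb₁0 y z) hy
      rw [hbb] at hbz; beta_reduce at hbz
      linarith
    have hg2 : ∀ y ∈ S, ∀ y' ∈ S, y ≠ y' → δ' ≤ nd ((z.1 : ℝ) * z.2 * (y - y')) := by
      intro y hy y' hy' hyy
      by_contra hcon
      have h1 : b₂ y y' z = 1 := by rw [hb₂]; beta_reduce; rw [if_pos hyy, if_neg hcon]
      have h2 : b₂ y y' z ≤ ∑ y' ∈ S, b₂ y y' z := single_le_sum (f := fun y' => b₂ y y' z)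
        (fun y' _ => hb₂0 y y' z) hy'
      have h2' : ∑ y' ∈ S, b₂ y y' z ≤ ∑ y ∈ S, ∑ y' ∈ S, b₂ y y' z :=
        single_le_sum (f := fun y => ∑ y' ∈ S, b₂ y y' z)
          (fun y _ => sum_nonneg fun y' _ => hb₂0 y y' z) hy
      rw [hbb] at hbz; beta_reduce at hbz
      linarith
    have hg3 : ∀ y ∈ S, Sq Q' δ' ((z.1 : ℝ) * z.2 * y) := by
      intro y hy
      by_contra hcon
      have h1 : b₃ y z = 1 := by rw [hb₃]; beta_reduce; rw [if_neg hcon]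
      have h2 : b₃ y z ≤ ∑ y ∈ S, b₃ y z := single_le_sum (f := fun y => b₃ y z)
        (fun y _ => hb₃0 y z) hy
      rw [hbb] at hbz; beta_reduce at hbz
      linarith
    have hbp := hbb0 z
    have hkb : 0 ≤ ((k : ℝ) + 1) * bb z := by positivity
    -- the children
    obtain ⟨d, hd⟩ : ∃ d : ℝ, d = (z.1 : ℝ) * z.2 := ⟨_, rfl⟩
    have hd0 : 0 < d := by
      rw [hd]
      have h1 := (hP _ hz.1).pos
      have h2 := (hP' _ hz.2).pos
      positivity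
    have hdn : ((z.1 * z.2 : ℕ) : ℝ) = d := by rw [hd]; push_cast; ring
    rw [← hd] at hg2 hg3 ⊢
    set n' := n / z.1 / z.2 with hn'
    set H' := H / z.1 / z.2 with hH'
    have hH'0 : 0 < H' := hHz z hz'
    have hH'r : (0 : ℝ) < H' := by exact_mod_cast hH'0
    have hchild : ∀ y ∈ S, m y ≤ cc a n' H' (d * y) := by
      intro y hy
      refine max_le (cc_nonneg _ _ _ _) ?_
      by_cases hxy : 2 * η ≤ cc a n H y
      · have h1 := hg1 y hy hxy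
        rw [badpp, mem_filter, not_and, not_not] at h1
        have h2 := h1 hz'
        rw [ph_mul, hdn] at h2
        have e : cc a n' H' (d * y) = ws (ph (d * y)) a n' H' / H' := rfl
        rw [e, le_div_iff₀ hH'r]
        exact h2
      · push Not at hxy
        have := cc_nonneg a n' H' (d * y)
        linarith
    set T0 : Finset ℝ := (S.filter fun y => φ (d * y) ≠ 0).image (fun y => d * y) with hT0
    have hT0mem : ∀ x ∈ T0, ∃ y ∈ S, φ (d * y) ≠ 0 ∧ x = d * y := by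
      intro x hx
      rw [hT0, mem_image] at hx
      obtain ⟨y, hy, rfl⟩ := hx
      rw [mem_filter] at hy
      exact ⟨y, hy.1, hy.2, rfl⟩
    have hcard : T0.card ≤ k := card_image_le.trans ((card_filter_le _ _).trans hSk)
    have hsep0 : ∀ x ∈ T0, ∀ x' ∈ T0, x ≠ x' → δ' ≤ nd (x - x') := by
      intro x hx x' hx' hxx
      obtain ⟨y, hy, _, rfl⟩ := hT0mem x hx
      obtain ⟨y', hy', _, rfl⟩ := hT0mem x' hx'
      have h1 := hg2 y hy y' hy' (fun h => hxx (by rw [h]))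
      have e : d * y - d * y' = d * (y - y') := by ring
      rw [e]; exact h1
    have hsq0 : ∀ x ∈ T0, Sq Q' δ' x := by
      intro x hx
      obtain ⟨y, hy, _, rfl⟩ := hT0mem x hx
      exact hg3 y hy
    have hE0 : ∑ y ∈ S, φ (d * y) * (m y) ^ 2 ≤ ∑ x ∈ T0, (cc a n' H' x) ^ 2 := by
      rw [hT0, sum_image (by
        intro x _ y _ h
        exact mul_left_cancel₀ hd0.ne' h), sum_filter]
      refine sum_le_sum fun y hy => ?_
      by_cases h : φ (d * y) ≠ 0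
      · rw [if_pos h]
        calc φ (d * y) * (m y) ^ 2 ≤ 1 * (cc a n' H' (d * y)) ^ 2 :=
              mul_le_mul (hφ1 _) (pow_le_pow_left₀ (hm0 _) (hchild y hy) 2) (by positivity)
                zero_le_one
          _ = _ := one_mul _
      · rw [if_neg h]
        push Not at h
        rw [h, zero_mul]
    have hfin : qa a T n' H' ≤ Ph a (k + 1) Q' δ' n' H' - ∑ x ∈ T0, (cc a n' H' x) ^ 2 := by
      apply qa_le a T n' H' hH'0
      · have := le_Ph a ha (k + 1) Q' δ' n' H' T0 ⟨hcard.trans (by omega), hsq0, hsep0⟩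
        linarith
      · intro α hα
        have hfar : ∀ x ∈ T0, δ' ≤ nd (α - x) := by
          intro x hx
          obtain ⟨y, hy, hφy', rfl⟩ := hT0mem x hx
          exact hφT _ hφy' α hα
        have hnot : α ∉ T0 := by
          intro hcon
          have := hfar α hcon
          rw [sub_self] at this
          have h0 : nd (0 : ℝ) = 0 := by simpa using nd_int 0
          rw [h0] at this
          linarith
        have h1 := le_Ph a ha (k + 1) Q' δ' n' H' (insert α T0) (by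
          refine ⟨?_, ?_, ?_⟩
          · rw [card_insert_of_notMem hnot]; omega
          · intro y hy
            rw [mem_insert] at hy
            rcases hy with rfl | hy
            · exact hT _ hα
            · exact hsq0 y hy
          · intro y hy y' hy' hyy
            rw [mem_insert] at hy hy'
            rcases hy with rfl | hy
            · rcases hy' with rfl | hy'
              · exact absurd rfl hyy
              · exact hfar y' hy'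
            · rcases hy' with rfl | hy'
              · have := hfar y hy
                rw [← nd_neg] at this
                rw [neg_sub] at this
                exact this
              · exact hsep0 y hy y' hy' hyy)
        rw [sum_insert hnot] at h1
        linarith
    linarith
  -- the sum over the pairs of primes
  have hsum : ∑ z ∈ P ×ˢ P', 1 / ((z.1 : ℝ) * z.2) * (∑ y ∈ S, φ ((z.1 : ℝ) * z.2 * y) * (m y) ^ 2 +
      qa a T (n / z.1 / z.2) (H / z.1 / z.2)) ≤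
      ∑ z ∈ P ×ˢ P', 1 / ((z.1 : ℝ) * z.2) *
        (Ph a (k + 1) Q' δ' (n / z.1 / z.2) (H / z.1 / z.2) + (k + 1) * bb z) :=
    sum_le_sum fun z hz => mul_le_mul_of_nonneg_left (hpt z hz) (hw z)
  have e1 : ∑ z ∈ P ×ˢ P', 1 / ((z.1 : ℝ) * z.2) * (∑ y ∈ S, φ ((z.1 : ℝ) * z.2 * y) * (m y) ^ 2 +
      qa a T (n / z.1 / z.2) (H / z.1 / z.2)) =
      ∑ y ∈ S, (∑ z ∈ P ×ˢ P', 1 / ((z.1 : ℝ) * z.2) * φ ((z.1 : ℝ) * z.2 * y)) * (m y) ^ 2 +
      ∑ z ∈ P ×ˢ P', 1 / ((z.1 : ℝ) * z.2) * qa a T (n / z.1 / z.2) (H / z.1 / z.2) := by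
    simp only [mul_add, sum_add_distrib]
    congr 1
    simp only [mul_sum, sum_mul]
    rw [sum_comm]
    exact sum_congr rfl fun y _ => sum_congr rfl fun z _ => by ring
  have e2 : ∑ z ∈ P ×ˢ P', 1 / ((z.1 : ℝ) * z.2) *
        (Ph a (k + 1) Q' δ' (n / z.1 / z.2) (H / z.1 / z.2) + (k + 1) * bb z) =
      ∑ z ∈ P ×ˢ P', 1 / ((z.1 : ℝ) * z.2) * Ph a (k + 1) Q' δ' (n / z.1 / z.2) (H / z.1 / z.2) +
      (k + 1) * (∑ y ∈ S, ∑ z ∈ P ×ˢ P', 1 / ((z.1 : ℝ) * z.2) * b₁ y z +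
        ∑ y ∈ S, ∑ y' ∈ S, ∑ z ∈ P ×ˢ P', 1 / ((z.1 : ℝ) * z.2) * b₂ y y' z +
        ∑ y ∈ S, ∑ z ∈ P ×ˢ P', 1 / ((z.1 : ℝ) * z.2) * b₃ y z) := by
    have c1 : ∑ y ∈ S, ∑ z ∈ P ×ˢ P', 1 / ((z.1 : ℝ) * z.2) * b₁ y z =
        ∑ z ∈ P ×ˢ P', 1 / ((z.1 : ℝ) * z.2) * ∑ y ∈ S, b₁ y z := by
      rw [sum_comm]; exact sum_congr rfl fun p _ => (mul_sum _ _ _).symm
    have c3 : ∑ y ∈ S, ∑ z ∈ P ×ˢ P', 1 / ((z.1 : ℝ) * z.2) * b₃ y z =
        ∑ z ∈ P ×ˢ P', 1 / ((z.1 : ℝ) * z.2) * ∑ y ∈ S, b₃ y z := by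
      rw [sum_comm]; exact sum_congr rfl fun p _ => (mul_sum _ _ _).symm
    have c4 : ∑ y ∈ S, ∑ y' ∈ S, ∑ z ∈ P ×ˢ P', 1 / ((z.1 : ℝ) * z.2) * b₂ y y' z =
        ∑ z ∈ P ×ˢ P', 1 / ((z.1 : ℝ) * z.2) * ∑ y ∈ S, ∑ y' ∈ S, b₂ y y' z := by
      have : ∀ y, ∑ y' ∈ S, ∑ z ∈ P ×ˢ P', 1 / ((z.1 : ℝ) * z.2) * b₂ y y' z =
          ∑ z ∈ P ×ˢ P', 1 / ((z.1 : ℝ) * z.2) * ∑ y' ∈ S, b₂ y y' z := by
        intro y
        rw [sum_comm]; exact sum_congr rfl fun p _ => (mul_sum _ _ _).symm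
      simp only [this]
      rw [sum_comm]; exact sum_congr rfl fun p _ => (mul_sum _ _ _).symm
    rw [c1, c3, c4, ← sum_add_distrib, ← sum_add_distrib, mul_sum, ← sum_add_distrib]
    refine sum_congr rfl fun z _ => ?_
    rw [hbb]; beta_reduce
    ring
  have hB1 : ∑ y ∈ S, ∑ z ∈ P ×ˢ P', 1 / ((z.1 : ℝ) * z.2) * b₁ y z ≤
      k * (8 / η ^ 2 * (WW P + WW P')) := by
    have h0 : 0 ≤ 8 / η ^ 2 * (WW P + WW P') := by positivity
    calc _ ≤ ∑ y ∈ S, 8 / η ^ 2 * (WW P + WW P') := by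
          refine sum_le_sum fun y _ => ?_
          by_cases hxy : 2 * η ≤ cc a n H y
          · have h1 := badpp_weight P P' hP hP' P₀ hP₀ hP₀' η (cc a n H y) hη hxy hη8 (ph y) a
              (norm_ph y) ha hmul n H hH (cc_mul a n H hH0 y).ge
            refine le_trans (le_of_eq ?_) h1
            have hsub : badpp P P' (ph y) a η (cc a n H y) n H ⊆ P ×ˢ P' := filter_subset _ _
            rw [← sum_subset hsub (f := fun z : ℕ × ℕ => 1 / ((z.1 : ℝ) * z.2) * b₁ y z)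
              (fun z _ hz => by
                simp only [hb₁]
                rw [if_neg (fun h => hz h.2), mul_zero])]
            refine sum_congr rfl fun z hz => ?_
            simp only [hb₁]
            rw [if_pos ⟨hxy, hz⟩, mul_one]
          · refine le_trans (le_of_eq ?_) h0
            refine sum_eq_zero fun z _ => ?_
            simp only [hb₁]
            rw [if_neg (fun h => hxy h.1), mul_zero]
      _ = S.card * (8 / η ^ 2 * (WW P + WW P')) := by simp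
      _ ≤ _ := mul_le_mul_of_nonneg_right hSkr h0
  have hP₀r : (0 : ℝ) < P₀ := by exact_mod_cast hP₀0
  have hc0 : 0 ≤ 2 / (P₀ : ℝ) * (WW P + WW P') := by positivity
  have hB2 : ∑ y ∈ S, ∑ y' ∈ S, ∑ z ∈ P ×ˢ P', 1 / ((z.1 : ℝ) * z.2) * b₂ y y' z ≤
      k ^ 2 * (2 / P₀ * (WW P + WW P')) := by
    calc _ ≤ ∑ y ∈ S, ∑ y' ∈ S, 2 / P₀ * (WW P + WW P') := by
          refine sum_le_sum fun y hy => sum_le_sum fun y' hy' => ?_
          by_cases hyy : y ≠ y'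
          · simp only [hb₂, if_pos hyy]
            exact few_close P P' hP hP' P₀ hP₀0 hP₀ hP₀' Z hZ hZ' δ δ' (y - y')
              (hSs y hy y' hy' hyy) hδδ
          · simp only [hb₂, if_neg hyy, mul_zero, sum_const_zero]
            exact hc0
      _ = (S.card : ℝ) ^ 2 * (2 / P₀ * (WW P + WW P')) := by
          simp only [sum_const, nsmul_eq_mul]; ring
      _ ≤ _ := by
          have : (S.card : ℝ) ^ 2 ≤ (k : ℝ) ^ 2 := pow_le_pow_left₀ (Nat.cast_nonneg _) hSkr 2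
          exact mul_le_mul_of_nonneg_right this hc0
  have hB3 : ∑ y ∈ S, ∑ z ∈ P ×ˢ P', 1 / ((z.1 : ℝ) * z.2) * b₃ y z ≤
      k * (Q' * (2 / P₀ * (WW P + WW P'))) := by
    have h0 : 0 ≤ Q' * (2 / P₀ * (WW P + WW P')) := mul_nonneg hQ'0 hc0
    calc _ ≤ ∑ y ∈ S, Q' * (2 / P₀ * (WW P + WW P')) := by
          refine sum_le_sum fun y hy => ?_
          simp only [hb₃]
          exact few_sq P P' hP hP' P₀ hP₀0 hP₀ hP₀' Z hZ hZ' Q' δ δ' y hQ'0
            ((hSq y hy).mono hQQ le_rfl) hδδ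
      _ = S.card * (Q' * (2 / P₀ * (WW P + WW P'))) := by simp
      _ ≤ _ := mul_le_mul_of_nonneg_right hSkr h0
  -- the main term
  have hmain : (1 - v) * W * ∑ y ∈ S, (cc a n H y) ^ 2 ≤
      ∑ y ∈ S, (∑ z ∈ P ×ˢ P', 1 / ((z.1 : ℝ) * z.2) * φ ((z.1 : ℝ) * z.2 * y)) * (m y) ^ 2 +
      5 * η * k * W := by
    have h1 : ∀ y ∈ S, (1 - v) * W * (cc a n H y) ^ 2 ≤
        (∑ z ∈ P ×ˢ P', 1 / ((z.1 : ℝ) * z.2) * φ ((z.1 : ℝ) * z.2 * y)) * (m y) ^ 2 +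
        5 * η * W := by
      intro y hy
      have h2 := mul_le_mul_of_nonneg_right (hφy y (hSq y hy)) (sq_nonneg (m y))
      have h3 := hmsq y
      have h4 : (m y) ^ 2 ≤ 1 := pow_le_one₀ (hm0 _) (hm1 _)
      have h5 : (1 - v) * ((cc a n H y) ^ 2 - 4 * η) ≤ (1 - v) * (m y) ^ 2 :=
        mul_le_mul_of_nonneg_left h3 (by linarith)
      have h6 : (1 - v) * (cc a n H y) ^ 2 ≤ (1 - v - η) * (m y) ^ 2 + 5 * η := by nlinarith
      have h7 := mul_le_mul_of_nonneg_right h6 hW0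
      calc (1 - v) * W * (cc a n H y) ^ 2 = (1 - v) * (cc a n H y) ^ 2 * W := by ring
        _ ≤ ((1 - v - η) * (m y) ^ 2 + 5 * η) * W := h7
        _ = (1 - v - η) * W * (m y) ^ 2 + 5 * η * W := by ring
        _ ≤ _ := by linarith
    rw [mul_sum]
    calc _ ≤ ∑ y ∈ S, ((∑ z ∈ P ×ˢ P', 1 / ((z.1 : ℝ) * z.2) * φ ((z.1 : ℝ) * z.2 * y)) *
          (m y) ^ 2 + 5 * η * W) := sum_le_sum h1
      _ = ∑ y ∈ S, (∑ z ∈ P ×ˢ P', 1 / ((z.1 : ℝ) * z.2) * φ ((z.1 : ℝ) * z.2 * y)) *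
          (m y) ^ 2 + S.card * (5 * η * W) := by
          rw [sum_add_distrib, sum_const, nsmul_eq_mul]
      _ ≤ _ := by
          have : (S.card : ℝ) * (5 * η * W) ≤ k * (5 * η * W) :=
            mul_le_mul_of_nonneg_right hSkr (by positivity)
          linarith
  rw [e1, e2] at hsum
  have hf : ((k : ℝ) + 1) * (∑ y ∈ S, ∑ z ∈ P ×ˢ P', 1 / ((z.1 : ℝ) * z.2) * b₁ y z +
        ∑ y ∈ S, ∑ y' ∈ S, ∑ z ∈ P ×ˢ P', 1 / ((z.1 : ℝ) * z.2) * b₂ y y' z +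
        ∑ y ∈ S, ∑ z ∈ P ×ˢ P', 1 / ((z.1 : ℝ) * z.2) * b₃ y z) ≤
      (k + 1) * (k * (8 / η ^ 2 * (WW P + WW P')) +
        (k ^ 2 + k * Q') * (2 / P₀ * (WW P + WW P'))) := by
    apply mul_le_mul_of_nonneg_left _ (by positivity)
    linarith
  linarith

end Pool.Agent.Lib.MP_663568_dch
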