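import Mathlib
import Pool.Agent.Lib.MP_663568_dch.Win

/-!
# The increment of the energy for logarithmic averages
-/

set_option autoImplicit false
open Finset

namespace Pool.Agent.Lib.MP_663568_dch

open Pool.Agent.Lib.MP_663568_nt Pool.Agent.Lib.MP_663568_nt.Katai
  Pool.Agent.Lib.MP_663568_nt.Nul Pool.Agent.Lib.MP_663568_nt.H6

/-- logarithmic average of the energy -/
noncomputable def Xe (a : ℕ → ℂ) (k : ℕ) (Q δ : ℝ) (N L : ℕ) : ℝ :=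
  ∑ n ∈ Icc 1 N, (1 / (n : ℝ)) * Ph a k Q δ n L

/-- logarithmic average of the square of the largest correlation with a frequency in `T` -/
noncomputable def Ye (a : ℕ → ℂ) (T : Set ℝ) (N L : ℕ) : ℝ :=
  ∑ n ∈ Icc 1 N, (1 / (n : ℝ)) * qa a T n L

theorem step_avg (a : ℕ → ℂ) (ha : ∀ n, ‖a n‖ ≤ 1) (hmul : Mult a)
    (P P' : Finset ℕ) (hP : ∀ p ∈ P, p.Prime) (hP' : ∀ p ∈ P', p.Prime) (P₀ : ℕ)
    (hP₀0 : 0 < P₀) (hP₀ : ∀ p ∈ P, P₀ ≤ p) (hP₀' : ∀ p ∈ P', P₀ ≤ p) (Z : ℝ)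
    (hZ : ∀ p ∈ P, (p : ℝ) ≤ Z) (hZ' : ∀ p ∈ P', (p : ℝ) ≤ Z) (W₀ : ℝ) (hW₀ : 0 < W₀)
    (hW : W₀ ≤ WW P) (hW' : W₀ ≤ WW P') (η : ℝ) (hη : 0 < η)
    (hη8 : 8 / η ≤ P₀) (k : ℕ) (Q δ Q' δ' : ℝ) (hQ'0 : 0 ≤ Q') (hQQ : Q' ≤ Q)
    (hδδ : 2 * Z ^ 2 * δ' < δ)
    (T : Set ℝ) (hT : ∀ y ∈ T, Sq Q' δ' y) (φ : ℝ → ℝ) (hφ1 : ∀ x, φ x ≤ 1)
    (hφT : ∀ x, φ x ≠ 0 → ∀ α ∈ T, δ' ≤ nd (α - x)) (hδ'0 : 0 < δ')
    (v : ℝ) (hv0 : 0 ≤ v) (hv1 : v ≤ 1)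
    (hφ0 : ∀ x, 0 ≤ φ x)
    (hφy : ∀ y, Sq Q δ y → (1 - v - η) * (WW P * WW P') ≤
      ∑ z ∈ P ×ˢ P', 1 / ((z.1 : ℝ) * z.2) * φ ((z.1 : ℝ) * z.2 * y))
    (L : ℕ) (hL : LongH P P' η L) (hLz : ∀ z ∈ P ×ˢ P', 0 < L / z.1 / z.2)
    (N : ℕ) (hN : Z ^ 2 ≤ N) :
    ∃ z ∈ P ×ˢ P', (1 - v) * Xe a k Q δ N L + Ye a T N (L / z.1 / z.2) ≤
      Xe a (k + 1) Q' δ' N (L / z.1 / z.2) +
        ((1 + Real.log N) * (5 * η * k + (k + 1) * (k * (8 / η ^ 2) + (k ^ 2 + k * Q') * (2 / P₀)) *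
          (2 / W₀)) + (k + 2) * (Real.log (Z ^ 2) + 3)) := by
  classical
  by_contra hcon
  push Not at hcon
  have hWP : 0 < WW P := hW₀.trans_le hW
  have hWP' : 0 < WW P' := hW₀.trans_le hW'
  obtain ⟨W, hWd⟩ : ∃ W : ℝ, W = WW P * WW P' := ⟨_, rfl⟩
  have hW0 : 0 < W := by rw [hWd]; exact mul_pos hWP hWP'
  have hP₀r : (0 : ℝ) < P₀ := by exact_mod_cast hP₀0
  have hw : ∀ z : ℕ × ℕ, 0 ≤ 1 / ((z.1 : ℝ) * z.2) := fun z => by positivity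
  have hWW : ∑ z ∈ P ×ˢ P', 1 / ((z.1 : ℝ) * z.2) = W := by
    rw [sum_product, hWd, WW, WW, sum_mul_sum]
    exact sum_congr rfl fun p _ => sum_congr rfl fun q _ => by rw [one_div_mul_one_div]
  have hsumW : WW P + WW P' ≤ 2 / W₀ * W := by
    have h1 : W₀ * WW P ≤ W := by rw [hWd, mul_comm]; exact mul_le_mul_of_nonneg_left hW' hWP.le
    have h2 : W₀ * WW P' ≤ W := by rw [hWd]; exact mul_le_mul_of_nonneg_right hW hWP'.le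
    rw [div_mul_eq_mul_div, le_div_iff₀ hW₀]
    linarith
  have hpne : (P ×ˢ P').Nonempty := by
    rw [nonempty_iff_ne_empty]
    intro h
    rw [h, sum_empty] at hWW
    linarith
  obtain ⟨err, herr⟩ : ∃ err : ℝ, err = 5 * η * k +
      (k + 1) * (k * (8 / η ^ 2) + (k ^ 2 + k * Q') * (2 / P₀)) * (2 / W₀) := ⟨_, rfl⟩
  have herr0 : 0 ≤ err := by rw [herr]; positivity
  obtain ⟨E, hE⟩ : ∃ E : ℝ, E = (1 + Real.log N) * err + (k + 2) * (Real.log (Z ^ 2) + 3) :=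
    ⟨_, rfl⟩
  rw [← herr, ← hE] at hcon
  -- sum of the inequality for windows
  have h1 : ∀ n ∈ Icc 1 N, (1 / (n : ℝ)) * ((1 - v) * W * Ph a k Q δ n L +
      ∑ z ∈ P ×ˢ P', 1 / ((z.1 : ℝ) * z.2) * qa a T (n / z.1 / z.2) (L / z.1 / z.2)) ≤
      (1 / (n : ℝ)) * (∑ z ∈ P ×ˢ P', 1 / ((z.1 : ℝ) * z.2) *
        Ph a (k + 1) Q' δ' (n / z.1 / z.2) (L / z.1 / z.2) + W * err) := by
    intro n _
    refine mul_le_mul_of_nonneg_left ?_ (by positivity)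
    have h2 := one_win a ha hmul P P' hP hP' P₀ hP₀0 hP₀ hP₀' Z hZ hZ' η hη hη8 k Q δ Q' δ' hQ'0
      hQQ hδδ T hT φ hφ0 hφ1 hφT hδ'0 v hv0 hv1 hφy n L hL hLz
    rw [← hWd] at h2
    refine h2.trans ?_
    have h3 : (k + 1 : ℝ) * (k * (8 / η ^ 2 * (WW P + WW P')) +
        (k ^ 2 + k * Q') * (2 / P₀ * (WW P + WW P'))) ≤
        (k + 1) * (k * (8 / η ^ 2 * (2 / W₀ * W)) + (k ^ 2 + k * Q') * (2 / P₀ * (2 / W₀ * W))) := by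
      gcongr
    have h4 : W * err = 5 * η * k * W +
        (k + 1) * (k * (8 / η ^ 2 * (2 / W₀ * W)) + (k ^ 2 + k * Q') * (2 / P₀ * (2 / W₀ * W))) := by
      rw [herr]; ring
    linarith
  have h2 := sum_le_sum h1
  have e1 : ∑ n ∈ Icc 1 N, (1 / (n : ℝ)) * ((1 - v) * W * Ph a k Q δ n L +
      ∑ z ∈ P ×ˢ P', 1 / ((z.1 : ℝ) * z.2) * qa a T (n / z.1 / z.2) (L / z.1 / z.2)) =
      W * ((1 - v) * Xe a k Q δ N L) + ∑ z ∈ P ×ˢ P', 1 / ((z.1 : ℝ) * z.2) *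
        ∑ n ∈ Icc 1 N, (1 / (n : ℝ)) * qa a T (n / z.1 / z.2) (L / z.1 / z.2) := by
    have c1 : ∑ z ∈ P ×ˢ P', 1 / ((z.1 : ℝ) * z.2) *
        ∑ n ∈ Icc 1 N, (1 / (n : ℝ)) * qa a T (n / z.1 / z.2) (L / z.1 / z.2) =
        ∑ n ∈ Icc 1 N, (1 / (n : ℝ)) *
          ∑ z ∈ P ×ˢ P', 1 / ((z.1 : ℝ) * z.2) * qa a T (n / z.1 / z.2) (L / z.1 / z.2) := by
      simp only [mul_sum]
      rw [sum_comm]
      exact sum_congr rfl fun n _ => sum_congr rfl fun z _ => by ring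
    rw [c1, Xe, mul_sum, mul_sum, ← sum_add_distrib]
    exact sum_congr rfl fun n _ => by ring
  have e2 : ∑ n ∈ Icc 1 N, (1 / (n : ℝ)) * (∑ z ∈ P ×ˢ P', 1 / ((z.1 : ℝ) * z.2) *
        Ph a (k + 1) Q' δ' (n / z.1 / z.2) (L / z.1 / z.2) + W * err) =
      ∑ z ∈ P ×ˢ P', 1 / ((z.1 : ℝ) * z.2) * ∑ n ∈ Icc 1 N, (1 / (n : ℝ)) *
        Ph a (k + 1) Q' δ' (n / z.1 / z.2) (L / z.1 / z.2) +
      (∑ n ∈ Icc 1 N, (1 / (n : ℝ))) * (W * err) := by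
    have c1 : ∑ z ∈ P ×ˢ P', 1 / ((z.1 : ℝ) * z.2) * ∑ n ∈ Icc 1 N, (1 / (n : ℝ)) *
        Ph a (k + 1) Q' δ' (n / z.1 / z.2) (L / z.1 / z.2) =
        ∑ n ∈ Icc 1 N, (1 / (n : ℝ)) * ∑ z ∈ P ×ˢ P', 1 / ((z.1 : ℝ) * z.2) *
        Ph a (k + 1) Q' δ' (n / z.1 / z.2) (L / z.1 / z.2) := by
      simp only [mul_sum]
      rw [sum_comm]
      exact sum_congr rfl fun n _ => sum_congr rfl fun z _ => by ring
    rw [c1, sum_mul, ← sum_add_distrib]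
    exact sum_congr rfl fun n _ => by ring
  rw [e1, e2] at h2
  -- transfer
  have hz0 : ∀ z ∈ P ×ˢ P', 0 < z.1 * z.2 := fun z hz => by
    rw [mem_product] at hz
    exact Nat.mul_pos (hP _ hz.1).pos (hP' _ hz.2).pos
  have hzZ : ∀ z ∈ P ×ˢ P', ((z.1 * z.2 : ℕ) : ℝ) ≤ Z ^ 2 := fun z hz => by
    rw [mem_product] at hz
    have a1 := hZ _ hz.1
    have a2 := hZ' _ hz.2
    have a3 : (0 : ℝ) ≤ z.1 := Nat.cast_nonneg _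
    push_cast
    calc (z.1 : ℝ) * z.2 ≤ Z * Z := mul_le_mul a1 a2 (Nat.cast_nonneg _) (by linarith)
      _ = Z ^ 2 := by ring
  have hzN : ∀ z ∈ P ×ˢ P', z.1 * z.2 ≤ N := fun z hz => by
    have := (hzZ z hz).trans hN
    exact_mod_cast this
  have hlogz : ∀ z ∈ P ×ˢ P', Real.log ((z.1 * z.2 : ℕ) : ℝ) ≤ Real.log (Z ^ 2) := fun z hz =>
    Real.log_le_log (by exact_mod_cast hz0 z hz) (hzZ z hz)
  have hlogz0 : ∀ z ∈ P ×ˢ P', 0 ≤ Real.log ((z.1 * z.2 : ℕ) : ℝ) := fun z hz =>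
    Real.log_nonneg (by exact_mod_cast hz0 z hz)
  have hwpos : ∀ z ∈ P ×ˢ P', 0 < 1 / ((z.1 : ℝ) * z.2) := fun z hz => by
    have := hz0 z hz
    have h1 : (0 : ℝ) < ((z.1 * z.2 : ℕ) : ℝ) := by exact_mod_cast this
    push_cast at h1
    positivity
  have h3 : ∀ z ∈ P ×ˢ P', 1 / ((z.1 : ℝ) * z.2) * (Xe a (k + 1) Q' δ' N (L / z.1 / z.2) + E) <
      1 / ((z.1 : ℝ) * z.2) * ((1 - v) * Xe a k Q δ N L + Ye a T N (L / z.1 / z.2)) := fun z hz =>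
    mul_lt_mul_of_pos_left (hcon z hz) (hwpos z hz)
  have h4 := sum_lt_sum_of_nonempty hpne h3
  have h5 : ∑ z ∈ P ×ˢ P', 1 / ((z.1 : ℝ) * z.2) * (Xe a (k + 1) Q' δ' N (L / z.1 / z.2) + E) =
      ∑ z ∈ P ×ˢ P', 1 / ((z.1 : ℝ) * z.2) * Xe a (k + 1) Q' δ' N (L / z.1 / z.2) + W * E := by
    rw [← hWW, sum_mul, ← sum_add_distrib]
    exact sum_congr rfl fun z _ => by ring
  have h6 : ∑ z ∈ P ×ˢ P', 1 / ((z.1 : ℝ) * z.2) *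
      ((1 - v) * Xe a k Q δ N L + Ye a T N (L / z.1 / z.2)) =
      W * ((1 - v) * Xe a k Q δ N L) +
      ∑ z ∈ P ×ˢ P', 1 / ((z.1 : ℝ) * z.2) * Ye a T N (L / z.1 / z.2) := by
    rw [← hWW, sum_mul, ← sum_add_distrib]
    exact sum_congr rfl fun z _ => by ring
  rw [h5, h6] at h4
  have h7 : ∑ z ∈ P ×ˢ P', 1 / ((z.1 : ℝ) * z.2) * Ye a T N (L / z.1 / z.2) ≤
      ∑ z ∈ P ×ˢ P', 1 / ((z.1 : ℝ) * z.2) *
        ∑ n ∈ Icc 1 N, (1 / (n : ℝ)) * qa a T (n / z.1 / z.2) (L / z.1 / z.2) +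
      W * (Real.log (Z ^ 2) + 3) := by
    rw [← hWW, sum_mul, ← sum_add_distrib]
    refine sum_le_sum fun z hz => ?_
    have h8 := log_lower (z.1 * z.2) (hz0 z hz) (fun n => qa a T n (L / z.1 / z.2)) 1
      (fun n => qa_nonneg _ _ _ _) (fun n => qa_le_one a ha _ _ _) N (hzN z hz)
    have h9 : Ye a T N (L / z.1 / z.2) ≤
        ∑ n ∈ Icc 1 N, (1 / (n : ℝ)) * qa a T (n / z.1 / z.2) (L / z.1 / z.2) +
          (Real.log (Z ^ 2) + 3) := by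
      have := hlogz z hz
      rw [Ye]
      simp only [← Nat.div_div_eq_div_mul] at h8
      linarith
    calc _ ≤ _ := mul_le_mul_of_nonneg_left h9 (hw z)
      _ = _ := by ring
  have h10 : ∑ z ∈ P ×ˢ P', 1 / ((z.1 : ℝ) * z.2) * ∑ n ∈ Icc 1 N, (1 / (n : ℝ)) *
        Ph a (k + 1) Q' δ' (n / z.1 / z.2) (L / z.1 / z.2) ≤
      ∑ z ∈ P ×ˢ P', 1 / ((z.1 : ℝ) * z.2) * Xe a (k + 1) Q' δ' N (L / z.1 / z.2) +
      W * ((k + 1) * (Real.log (Z ^ 2) + 3)) := by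
    rw [← hWW, sum_mul, ← sum_add_distrib]
    refine sum_le_sum fun z hz => ?_
    have h8 := log_upper (z.1 * z.2) (hz0 z hz)
      (fun n => Ph a (k + 1) Q' δ' n (L / z.1 / z.2)) (k + 1)
      (fun n => Ph_nonneg a ha _ _ _ _ _)
      (fun n => by simpa using Ph_le_card a ha (k + 1) Q' δ' n (L / z.1 / z.2)) N
    have h9 : ∑ n ∈ Icc 1 N, (1 / (n : ℝ)) *
        Ph a (k + 1) Q' δ' (n / z.1 / z.2) (L / z.1 / z.2) ≤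
        Xe a (k + 1) Q' δ' N (L / z.1 / z.2) + (k + 1) * (Real.log (Z ^ 2) + 3) := by
      have h11 := hlogz z hz
      have h12 : (1 + Real.log ((z.1 * z.2 : ℕ) : ℝ)) * ((k : ℝ) + 1) ≤
          (k + 1) * (Real.log (Z ^ 2) + 3) := by
        rw [mul_comm]
        exact mul_le_mul_of_nonneg_left (by linarith) (by positivity)
      rw [Xe]
      simp only [← Nat.div_div_eq_div_mul] at h8
      linarith
    calc _ ≤ _ := mul_le_mul_of_nonneg_left h9 (hw z)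
      _ = _ := by ring
  have h13 : (∑ n ∈ Icc 1 N, (1 / (n : ℝ))) * (W * err) ≤ (1 + Real.log N) * (W * err) :=
    mul_le_mul_of_nonneg_right (sum_inv_le_log N) (by positivity)
  have h14 : W * E = (1 + Real.log N) * (W * err) +
      (W * ((k + 1) * (Real.log (Z ^ 2) + 3)) + W * (Real.log (Z ^ 2) + 3)) := by
    rw [hE]; ring
  linarith

end Pool.Agent.Lib.MP_663568_dch
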