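import Mathlib
import Pool.Agent.Lib.MP_663568_dch.Sum

/-!
# The energy is at most the density of the squares
-/

set_option autoImplicit false
open Finset

namespace Pool.Agent.Lib.MP_663568_dch

open Pool.Agent.Lib.MP_663568_nt Pool.Agent.Lib.MP_663568_nt.Katai
  Pool.Agent.Lib.MP_663568_nt.Nul Pool.Agent.Lib.MP_663568_nt.H6

/-- logarithmic averages of averages over short windows -/
lemma win_dens (b : ℕ → ℝ) (hb0 : ∀ n, 0 ≤ b n) (hb1 : ∀ n, b n ≤ 1) (N L : ℕ) (hL : 0 < L) :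
    ∑ n ∈ Icc 1 N, (1 / (n : ℝ)) * ((∑ h ∈ Icc 1 L, b (n + h)) / L) ≤
      (1 + 1 / (L : ℝ)) * ∑ m ∈ Icc 1 (N + L), (1 / (m : ℝ)) * b m + (1 + 2 * Real.log L) := by
  have hLr : (1 : ℝ) ≤ L := by exact_mod_cast hL
  have hL0 : (0 : ℝ) < L := by linarith
  set c : ℕ → ℝ := fun n => (∑ h ∈ Icc 1 L, b (n + h)) / L with hc
  have hc0 : ∀ n, 0 ≤ c n := fun n => div_nonneg (sum_nonneg fun _ _ => hb0 _) hL0.le
  have hc1 : ∀ n, c n ≤ 1 := by
    intro n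
    rw [hc]; beta_reduce
    rw [div_le_one hL0]
    calc ∑ h ∈ Icc 1 L, b (n + h) ≤ ∑ h ∈ Icc 1 L, (1 : ℝ) := sum_le_sum fun h _ => hb1 _
      _ = L := by simp
  set S : ℝ := ∑ m ∈ Icc 1 (N + L), (1 / (m : ℝ)) * b m with hS
  have hterm : ∀ n ∈ Icc 1 N, (1 / (n : ℝ)) * c n ≤
      (if n ≤ L ^ 2 then 1 / (n : ℝ) else 0) +
      (1 + 1 / (L : ℝ)) * ((1 / (L : ℝ)) * ∑ h ∈ Icc 1 L, (1 / ((n + h : ℕ) : ℝ)) * b (n + h)) := by
    intro n hn
    rw [mem_Icc] at hn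
    have hn0 : (0 : ℝ) < n := by exact_mod_cast hn.1
    have hs0 : 0 ≤ (1 + 1 / (L : ℝ)) *
        ((1 / (L : ℝ)) * ∑ h ∈ Icc 1 L, (1 / ((n + h : ℕ) : ℝ)) * b (n + h)) := by
      have : 0 ≤ ∑ h ∈ Icc 1 L, (1 / ((n + h : ℕ) : ℝ)) * b (n + h) :=
        sum_nonneg fun h _ => mul_nonneg (by positivity) (hb0 _)
      positivity
    by_cases h : n ≤ L ^ 2
    · rw [if_pos h]
      have : (1 / (n : ℝ)) * c n ≤ 1 / n := mul_le_of_le_one_right (by positivity) (hc1 n)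
      linarith
    · rw [if_neg h, zero_add]
      push Not at h
      have hnL : (L : ℝ) ^ 2 ≤ n := by exact_mod_cast h.le
      have e0 : (1 / (n : ℝ)) * c n = ∑ h ∈ Icc 1 L, (1 / (n : ℝ)) * (b (n + h) * (1 / L)) := by
        rw [← mul_sum, ← sum_mul, mul_one_div]
      rw [e0, mul_sum, mul_sum]
      refine sum_le_sum fun h hh => ?_
      rw [mem_Icc] at hh
      have hhr : (h : ℝ) ≤ L := by exact_mod_cast hh.2
      have h1 : 1 / (n : ℝ) ≤ (1 + 1 / (L : ℝ)) * (1 / ((n + h : ℕ) : ℝ)) := by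
        have h2 : (0 : ℝ) < ((n + h : ℕ) : ℝ) := by push_cast; positivity
        rw [mul_one_div, div_le_div_iff₀ hn0 h2]
        push_cast
        have h3 : (h : ℝ) ≤ (1 / (L : ℝ)) * n := by
          rw [div_mul_eq_mul_div, le_div_iff₀ hL0, one_mul]
          nlinarith
        linarith
      calc (1 / (n : ℝ)) * (b (n + h) * (1 / L)) ≤
            ((1 + 1 / (L : ℝ)) * (1 / ((n + h : ℕ) : ℝ))) * (b (n + h) * (1 / L)) :=
            mul_le_mul_of_nonneg_right h1 (mul_nonneg (hb0 _) (by positivity))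
        _ = _ := by ring
  have h1 : ∑ n ∈ Icc 1 N, (if n ≤ L ^ 2 then 1 / (n : ℝ) else 0) ≤ 1 + 2 * Real.log L := by
    rw [← sum_filter]
    calc _ ≤ ∑ n ∈ Icc 1 (L ^ 2), 1 / (n : ℝ) := by
          apply sum_le_sum_of_subset_of_nonneg
          · intro n hn
            rw [mem_filter, mem_Icc] at hn
            rw [mem_Icc]
            exact ⟨hn.1.1, hn.2⟩
          · intro n _ _; positivity
      _ ≤ 1 + Real.log ((L ^ 2 : ℕ) : ℝ) := sum_inv_le_log (L ^ 2)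
      _ = _ := by push_cast; rw [Real.log_pow]; push_cast; ring
  have h2 : ∑ n ∈ Icc 1 N, ∑ h ∈ Icc 1 L, (1 / ((n + h : ℕ) : ℝ)) * b (n + h) ≤ L * S := by
    rw [sum_comm]
    calc _ ≤ ∑ h ∈ Icc 1 L, S := by
          refine sum_le_sum fun h hh => ?_
          rw [mem_Icc] at hh
          exact shift_sum (fun m => (1 / (m : ℝ)) * b m)
            (fun m => mul_nonneg (by positivity) (hb0 _)) 1 N h (N + L) (by omega) le_rfl
      _ = L * S := by simp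
  calc _ ≤ _ := sum_le_sum hterm
    _ = ∑ n ∈ Icc 1 N, (if n ≤ L ^ 2 then 1 / (n : ℝ) else 0) +
        (1 + 1 / (L : ℝ)) * ((1 / (L : ℝ)) *
          ∑ n ∈ Icc 1 N, ∑ h ∈ Icc 1 L, (1 / ((n + h : ℕ) : ℝ)) * b (n + h)) := by
        rw [sum_add_distrib, mul_sum, mul_sum]
    _ ≤ (1 + 2 * Real.log L) + (1 + 1 / (L : ℝ)) * ((1 / (L : ℝ)) * (L * S)) := by
        gcongr
    _ = _ := by field_simp; ring

/-- **The energy is at most the density of the squares.** -/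
lemma energy_dens (a : ℕ → ℂ) (ha : ∀ n, ‖a n‖ ≤ 1) (k : ℕ) (Q δ : ℝ) (hδ : 0 < δ) (N L : ℕ)
    (hL : 0 < L) (τ : ℝ) (hτ : 0 < τ) (hLτ : (k : ℝ) ^ 2 / (2 * δ * τ ^ 2) ≤ L) :
    Xe a k Q δ N L ≤ (1 + 1 / (L : ℝ)) * ∑ m ∈ Icc 1 (N + L), (1 / (m : ℝ)) * ‖a m‖ ^ 2 +
      (1 + 2 * Real.log L) + τ * (1 + Real.log N) := by
  have h1 : ∀ n, Ph a k Q δ n L ≤ (∑ h ∈ Icc 1 L, ‖a (n + h)‖ ^ 2) / L + τ := fun n =>
    Ph_le a k Q δ n L _ fun S hS => bessel a ha S k hS.1 δ hδ hS.2.2 n L hL τ hτ hLτ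
  have h2 := win_dens (fun m => ‖a m‖ ^ 2) (fun m => by positivity)
    (fun m => pow_le_one₀ (norm_nonneg _) (ha m)) N L hL
  calc Xe a k Q δ N L ≤ ∑ n ∈ Icc 1 N, (1 / (n : ℝ)) *
        ((∑ h ∈ Icc 1 L, ‖a (n + h)‖ ^ 2) / L + τ) :=
        sum_le_sum fun n _ => mul_le_mul_of_nonneg_left (h1 n) (by positivity)
    _ = ∑ n ∈ Icc 1 N, (1 / (n : ℝ)) * ((∑ h ∈ Icc 1 L, ‖a (n + h)‖ ^ 2) / L) +
        τ * ∑ n ∈ Icc 1 N, (1 / (n : ℝ)) := by
        simp only [mul_add]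
        rw [sum_add_distrib, mul_sum]
        congr 1
        exact sum_congr rfl fun n _ => mul_comm _ _
    _ ≤ _ := add_le_add h2 (mul_le_mul_of_nonneg_left (sum_inv_le_log N) hτ.le)

end Pool.Agent.Lib.MP_663568_dch
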