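import Mathlib
import Pool.Agent.Lib.MP_663568_dch.Dens

/-!
# The chain of increments of the energy
-/

set_option autoImplicit false
open Finset MeasureTheory

namespace Pool.Agent.Lib.MP_663568_dch

open Pool.Agent.Lib.MP_663568_nt Pool.Agent.Lib.MP_663568_nt.Katai
  Pool.Agent.Lib.MP_663568_nt.Nul Pool.Agent.Lib.MP_663568_nt.H6

/-- the conclusion of `equ_lower` -/
def EquP (W₀ η : ℝ) (P₀ B : ℕ) : Prop :=
  ∀ R : ℝ, 1 ≤ R → ∀ δ : ℝ, 0 < δ → δ ≤ 1 →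
    ∃ P P' : Finset ℕ, (∀ p ∈ P, p.Prime ∧ P₀ ≤ p) ∧ (∀ p ∈ P', p.Prime ∧ P₀ ≤ p) ∧
      W₀ ≤ WW P ∧ W₀ ≤ WW P' ∧
      ∀ (A : Set ℝ) (v : ℝ), 0 ≤ v →
        volume {y : ℝ | y ∈ Set.Icc (0 : ℝ) 1 ∧ ∃ α ∈ A, nd (α - y) ≤ 1 / R} ≤
          ENNReal.ofReal v →
        ∃ φ : ℝ → ℝ, (∀ x, 0 ≤ φ x) ∧ (∀ x, φ x ≤ 1) ∧
          (∀ x, φ x ≠ 0 → ∀ α ∈ A, 1 / (2 * R) < nd (α - x)) ∧
          ∀ y, Sq (B * (2 * R) ^ B) δ y → (1 - v - η) * (WW P * WW P') ≤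
            ∑ z ∈ P ×ˢ P', 1 / ((z.1 : ℝ) * z.2) * φ ((z.1 : ℝ) * z.2 * y)

/-- density of the squares -/
def DensP (ρ : ℝ) (x₀ : ℕ) (a : ℕ → ℂ) : Prop :=
  ∀ x : ℕ, x₀ ≤ x → ∑ m ∈ Icc 1 x, (1 / (m : ℝ)) * ‖a m‖ ^ 2 ≤ ρ * Real.log x

lemma exists_log_ge (c : ℝ) : ∃ N₀ : ℕ, 1 ≤ N₀ ∧ ∀ N : ℕ, N₀ ≤ N → c ≤ Real.log N := by
  refine ⟨⌈Real.exp c⌉₊ + 1, by omega, fun N hN => ?_⟩
  have h1 : Real.exp c ≤ N := by
    have h2 := Nat.le_ceil (Real.exp c)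
    have h3 : ((⌈Real.exp c⌉₊ + 1 : ℕ) : ℝ) ≤ N := by exact_mod_cast hN
    push_cast at h3
    linarith
  have := Real.log_le_log (Real.exp_pos c) h1
  rwa [Real.log_exp] at this

/-- **Bessel bound for the energy.** -/
lemma bess_bound (ε₁ ρ : ℝ) (hε₁ : 0 < ε₁) (hε₁1 : ε₁ ≤ 1) (hρ0 : 0 ≤ ρ) (hρ1 : ρ ≤ 1) (x₀ K : ℕ)
    (δ : ℝ) (hδ : 0 < δ) : ∃ Lm Nm : ℕ, 1 ≤ Lm ∧ ∀ a : ℕ → ℂ, (∀ n, ‖a n‖ ≤ 1) → DensP ρ x₀ a →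
      ∀ N L : ℕ, Lm ≤ L → Nm ≤ N → L ≤ N → Real.log L ≤ ε₁ / 64 * Real.log N →
      ∀ (k : ℕ) (Q : ℝ), k ≤ K → Xe a k Q δ N L ≤ (ρ + ε₁ / 4) * Real.log N := by
  obtain ⟨N₁, hN₁1, hN₁⟩ := exists_log_ge (64 / ε₁)
  obtain ⟨τ, hτ⟩ : ∃ τ : ℝ, τ = ε₁ / 64 := ⟨_, rfl⟩
  have hτ0 : 0 < τ := by rw [hτ]; positivity
  refine ⟨⌈(K : ℝ) ^ 2 / (2 * δ * τ ^ 2)⌉₊ + ⌈64 / ε₁⌉₊ + 1, max N₁ x₀, by omega, ?_⟩
  intro a ha hdens N L hL hN hLN hlogL k Q hk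
  have hL0 : 0 < L := by omega
  have hLr : (0 : ℝ) < L := by exact_mod_cast hL0
  have hLc : ((⌈(K : ℝ) ^ 2 / (2 * δ * τ ^ 2)⌉₊ + ⌈64 / ε₁⌉₊ + 1 : ℕ) : ℝ) ≤ L := by exact_mod_cast hL
  push_cast at hLc
  have hc1 := Nat.le_ceil ((K : ℝ) ^ 2 / (2 * δ * τ ^ 2))
  have hc2 := Nat.le_ceil (64 / ε₁)
  have hc3 : (0 : ℝ) ≤ ⌈64 / ε₁⌉₊ := Nat.cast_nonneg _
  have hc4 : (0 : ℝ) ≤ ⌈(K : ℝ) ^ 2 / (2 * δ * τ ^ 2)⌉₊ := Nat.cast_nonneg _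
  have hkK : (k : ℝ) ^ 2 / (2 * δ * τ ^ 2) ≤ L := by
    have : (k : ℝ) ≤ K := by exact_mod_cast hk
    calc (k : ℝ) ^ 2 / (2 * δ * τ ^ 2) ≤ (K : ℝ) ^ 2 / (2 * δ * τ ^ 2) := by gcongr
      _ ≤ (L : ℝ) := by linarith
  have hLi : 1 / (L : ℝ) ≤ τ := by
    rw [div_le_iff₀ hLr, hτ]
    have h1 : 64 / ε₁ ≤ L := by linarith
    rw [div_le_iff₀ hε₁] at h1
    linarith
  have hNr : (1 : ℝ) ≤ N := by
    have : 1 ≤ N := by omega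
    exact_mod_cast this
  have hlogN := hN₁ N ((le_max_left _ _).trans hN)
  have hlogN0 : 0 ≤ Real.log N := Real.log_nonneg hNr
  have h1 := energy_dens a ha k Q δ hδ N L hL0 τ hτ0 hkK
  have h2 : ∑ m ∈ Icc 1 (N + L), (1 / (m : ℝ)) * ‖a m‖ ^ 2 ≤ ρ * (Real.log N + 1) := by
    refine (hdens (N + L) (by have := (le_max_right N₁ x₀).trans hN; omega)).trans ?_
    apply mul_le_mul_of_nonneg_left _ hρ0
    have h3 : ((N + L : ℕ) : ℝ) ≤ 2 * N := by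
      have : N + L ≤ 2 * N := by omega
      exact_mod_cast this
    have h4 : Real.log ((N + L : ℕ) : ℝ) ≤ Real.log (2 * N) := by
      apply Real.log_le_log _ h3
      push_cast; linarith
    rw [Real.log_mul (by norm_num) (by linarith)] at h4
    linarith [Real.log_two_lt_d9]
  have h64 : 4 ≤ ε₁ / 16 * Real.log N := by
    rw [div_le_iff₀ hε₁] at hlogN
    linarith
  have hS0 : 0 ≤ ρ * (Real.log N + 1) := by positivity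
  have h5 : (1 + 1 / (L : ℝ)) * ∑ m ∈ Icc 1 (N + L), (1 / (m : ℝ)) * ‖a m‖ ^ 2 ≤
      (1 + τ) * (ρ * (Real.log N + 1)) := by
    have h6 : 0 ≤ ∑ m ∈ Icc 1 (N + L), (1 / (m : ℝ)) * ‖a m‖ ^ 2 :=
      sum_nonneg fun _ _ => by positivity
    have h7 : 1 + 1 / (L : ℝ) ≤ 1 + τ := by linarith
    calc _ ≤ (1 + τ) * ∑ m ∈ Icc 1 (N + L), (1 / (m : ℝ)) * ‖a m‖ ^ 2 :=
          mul_le_mul_of_nonneg_right h7 h6
      _ ≤ _ := mul_le_mul_of_nonneg_left h2 (by linarith)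
  have hρl : ρ * (Real.log N + 1) ≤ Real.log N + 1 := by nlinarith
  have h8 : τ * (ρ * (Real.log N + 1)) ≤ τ * (Real.log N + 1) :=
    mul_le_mul_of_nonneg_left hρl hτ0.le
  rw [hτ] at h8 h5 h1
  nlinarith

/-- the levels -/
noncomputable def Qs (B : ℕ → ℕ) (P0f : ℝ → ℕ) (R : ℝ) : ℕ → ℝ
  | 0 => 1
  | r + 1 => max (Qs B P0f R r) (B (P0f (Qs B P0f R r)) * (2 * R) ^ (B (P0f (Qs B P0f R r))))

lemma Qs_ge_one (B : ℕ → ℕ) (P0f : ℝ → ℕ) (R : ℝ) (r : ℕ) : 1 ≤ Qs B P0f R r := by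
  induction r with
  | zero => exact le_rfl
  | succ r ih => exact ih.trans (le_max_left _ _)

/-- numerical estimate for one step -/
lemma step_num (ε₁ η W₀ Q' P₀ K k lN lZ : ℝ) (hε₁ : 0 < ε₁) (hε₁1 : ε₁ ≤ 1) (hη : 0 < η)
    (hW₀ : 1 ≤ W₀) (hQ' : 0 ≤ Q') (hP₀ : 0 < P₀) (hk0 : 0 ≤ k) (hkK : k ≤ K)
    (h1 : 5 * η * K ≤ ε₁ / 32) (h2 : (K + 1) * (K * (8 / η ^ 2)) * (2 / W₀) ≤ ε₁ / 32)
    (h3 : (K + 1) * (K ^ 2 + K * Q') * 128 / ε₁ ≤ P₀) (hlN : 0 ≤ lN) (hlZ : 0 ≤ lZ)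
    (h4 : (1 + (K + 2) * (lZ + 3)) * 8 / ε₁ ≤ lN) :
    (1 + lN) * (5 * η * k + (k + 1) * (k * (8 / η ^ 2) + (k ^ 2 + k * Q') * (2 / P₀)) *
          (2 / W₀)) + (k + 2) * (lZ + 3) ≤ ε₁ / 4 * lN := by
  have hK0 : 0 ≤ K := hk0.trans hkK
  have a1 : 5 * η * k ≤ ε₁ / 32 := le_trans (by gcongr) h1
  have a2 : (k + 1) * (k * (8 / η ^ 2)) * (2 / W₀) ≤ ε₁ / 32 := le_trans (by gcongr) h2
  have a3 : (k + 1) * ((k ^ 2 + k * Q') * (2 / P₀)) * (2 / W₀) ≤ ε₁ / 32 := by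
    have h5 : (K + 1) * (K ^ 2 + K * Q') * 128 ≤ ε₁ * P₀ := by
      rw [div_le_iff₀ hε₁] at h3; linarith
    have h6 : (k + 1) * (k ^ 2 + k * Q') ≤ (K + 1) * (K ^ 2 + K * Q') := by gcongr
    have h7 : 2 / W₀ ≤ 2 := by rw [div_le_iff₀ (by linarith)]; linarith
    have h8 : 0 ≤ (k + 1) * (k ^ 2 + k * Q') := by positivity
    calc (k + 1) * ((k ^ 2 + k * Q') * (2 / P₀)) * (2 / W₀) =
          ((k + 1) * (k ^ 2 + k * Q')) * (2 / P₀) * (2 / W₀) := by ring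
      _ ≤ ((K + 1) * (K ^ 2 + K * Q')) * (2 / P₀) * 2 := by gcongr
      _ = ((K + 1) * (K ^ 2 + K * Q') * 4) / P₀ := by ring
      _ ≤ ε₁ / 32 := by
          rw [div_le_iff₀ hP₀]
          linarith
  have a4 : 5 * η * k + (k + 1) * (k * (8 / η ^ 2) + (k ^ 2 + k * Q') * (2 / P₀)) * (2 / W₀) ≤
      3 * ε₁ / 32 := by
    have e : (k + 1) * (k * (8 / η ^ 2) + (k ^ 2 + k * Q') * (2 / P₀)) * (2 / W₀) =
        (k + 1) * (k * (8 / η ^ 2)) * (2 / W₀) +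
        (k + 1) * ((k ^ 2 + k * Q') * (2 / P₀)) * (2 / W₀) := by ring
    rw [e]; linarith
  have a5 : (k + 2) * (lZ + 3) ≤ (K + 2) * (lZ + 3) := by gcongr
  rw [div_le_iff₀ hε₁] at h4
  have a6 : (1 + lN) * (5 * η * k + (k + 1) * (k * (8 / η ^ 2) + (k ^ 2 + k * Q') * (2 / P₀)) *
          (2 / W₀)) ≤ (1 + lN) * (3 * ε₁ / 32) :=
    mul_le_mul_of_nonneg_left a4 (by linarith)
  have a7 : 0 ≤ ε₁ * lN := by positivity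
  nlinarith

/-- **The chain of increments.** -/
theorem chain (ε₁ R ρ : ℝ) (hε₁ : 0 < ε₁) (hε₁1 : ε₁ ≤ 1) (hR : 1 ≤ R) (hρ0 : 0 ≤ ρ) (hρ1 : ρ ≤ 1)
    (x₀ K : ℕ) (η W₀ : ℝ) (hη : 0 < η) (hW₀ : 1 ≤ W₀) (h1 : 5 * η * K ≤ ε₁ / 32)
    (h2 : ((K : ℝ) + 1) * (K * (8 / η ^ 2)) * (2 / W₀) ≤ ε₁ / 32)
    (B : ℕ → ℕ) (hB : ∀ P₀, EquP W₀ η P₀ (B P₀)) (P0f : ℝ → ℕ) (hP0 : ∀ Q, 8 / η ≤ P0f Q)
    (hP0' : ∀ Q : ℝ, ((K : ℝ) + 1) * (K ^ 2 + K * Q) * 128 / ε₁ ≤ P0f Q) (r : ℕ) (hr : r ≤ K) :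
    ∀ δ : ℝ, 0 < δ → δ ≤ 1 → ∃ Lm Nm : ℕ, 1 ≤ Lm ∧ ∀ a : ℕ → ℂ, (∀ n, ‖a n‖ ≤ 1) → Mult a →
      DensP ρ x₀ a → ∀ (T : Set ℝ) (v : ℝ), 0 ≤ v → v ≤ 1 →
      volume {y : ℝ | y ∈ Set.Icc (0 : ℝ) 1 ∧ ∃ α ∈ T, nd (α - y) ≤ 1 / R} ≤
          ENNReal.ofReal v → (∀ y ∈ T, Sq (Qs B P0f R r) δ y) →
      ∀ N L : ℕ, Lm ≤ L → Nm ≤ N → L ≤ N → Real.log L ≤ ε₁ / 64 * Real.log N →
      (∀ L' : ℕ, 0 < L' → L' ≤ L → (v * ρ + ε₁) * Real.log N < Ye a T N L') →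
      Xe a (K - r) (Qs B P0f R r) δ N L ≤ (ρ + ε₁ / 4 - r * (ε₁ / 2)) * Real.log N := by
  induction r with
  | zero =>
    intro δ hδ hδ1
    obtain ⟨Lm, Nm, hLm, h⟩ := bess_bound ε₁ ρ hε₁ hε₁1 hρ0 hρ1 x₀ K δ hδ
    refine ⟨Lm, Nm, hLm, fun a ha _ hdens T v _ _ _ _ N L hL hN hLN hlogL _ => ?_⟩
    have := h a ha hdens N L hL hN hLN hlogL (K - 0) (Qs B P0f R 0) (by omega)
    simpa using this
  | succ r ih =>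
    intro δ hδ hδ1
    have ih' := ih (by omega)
    set Q' := Qs B P0f R r with hQ'
    set P₀ := P0f Q' with hP₀
    have hQ'1 : 1 ≤ Q' := Qs_ge_one B P0f R r
    obtain ⟨P, P', hPp, hPp', hWP, hWP', hE⟩ := hB P₀ R hR δ hδ hδ1
    obtain ⟨Zn, hZn⟩ : ∃ Zn : ℕ, Zn = 1 + ∑ p ∈ P, p + ∑ p ∈ P', p := ⟨_, rfl⟩
    have hZ : ∀ p ∈ P, (p : ℝ) ≤ Zn := by
      intro p hp
      have h3 : p ≤ ∑ p ∈ P, p := single_le_sum (f := fun p : ℕ => p) (fun _ _ => Nat.zero_le _) hp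
      have : p ≤ Zn := by omega
      exact_mod_cast this
    have hZ' : ∀ p ∈ P', (p : ℝ) ≤ Zn := by
      intro p hp
      have h3 : p ≤ ∑ p ∈ P', p := single_le_sum (f := fun p : ℕ => p) (fun _ _ => Nat.zero_le _) hp
      have : p ≤ Zn := by omega
      exact_mod_cast this
    have hZn1 : 1 ≤ Zn := by omega
    have hZr : (1 : ℝ) ≤ Zn := by exact_mod_cast hZn1
    obtain ⟨δ', hδ'⟩ : ∃ δ' : ℝ, δ' = δ / (4 * (Zn : ℝ) ^ 2 * R) := ⟨_, rfl⟩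
    have hR0 : 0 < R := by linarith
    have hδ'0 : 0 < δ' := by rw [hδ']; positivity
    have hZ2 : (1 : ℝ) ≤ (Zn : ℝ) ^ 2 := one_le_pow₀ hZr
    have hδ'δ : δ' ≤ δ := by
      rw [hδ', div_le_iff₀ (by positivity)]
      have : 1 ≤ 4 * (Zn : ℝ) ^ 2 * R := by nlinarith
      exact le_mul_of_one_le_right hδ.le this
    have hδδ : 2 * (Zn : ℝ) ^ 2 * δ' < δ := by
      have e : 2 * (Zn : ℝ) ^ 2 * δ' = δ / (2 * R) := by rw [hδ']; field_simp; norm_num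
      rw [e, div_lt_iff₀ (by positivity)]
      nlinarith
    have hδ'R : δ' ≤ 1 / (2 * R) := by
      rw [hδ', div_le_div_iff₀ (by positivity) (by positivity)]
      nlinarith
    obtain ⟨Lm', Nm', hLm', hind⟩ := ih' δ' hδ'0 (hδ'δ.trans hδ1)
    obtain ⟨Lb, Nb, hLb, hbess⟩ := bess_bound ε₁ ρ hε₁ hε₁1 hρ0 hρ1 x₀ K δ hδ
    obtain ⟨Lh, hLh⟩ := exists_longH P P' (fun p hp => (hPp p hp).1) η
    obtain ⟨N₁, hN₁1, hN₁⟩ := exists_log_ge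
      ((1 + (K + 2) * (Real.log ((Zn : ℝ) ^ 2) + 3)) * 8 / ε₁)
    refine ⟨Lm' * Zn ^ 2 + Lb + Lh, Nm' + Nb + N₁ + Zn ^ 2, by omega, ?_⟩
    intro a ha hmul hdens T v hv0 hv1 hvol hT N L hL hN hLN hlogL hno
    have hL1 : Lm' * Zn ^ 2 ≤ L := by omega
    have hNr : (1 : ℝ) ≤ N := by
      have : 1 ≤ N := by omega
      exact_mod_cast this
    have hlogN0 : 0 ≤ Real.log N := Real.log_nonneg hNr
    have hlogN1 := hN₁ N (by omega)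
    have hQ1 : Q' ≤ Qs B P0f R (r + 1) := le_max_left _ _
    have hQ2 : (B P₀ : ℝ) * (2 * R) ^ (B P₀) ≤ Qs B P0f R (r + 1) := le_max_right _ _
    obtain ⟨φ, hφ0, hφ1, hφT, hφy⟩ := hE T v hv0 hvol
    have hP₀8 : 8 / η ≤ (P₀ : ℝ) := hP0 Q'
    have hP₀r : (0 : ℝ) < P₀ := lt_of_lt_of_le (by positivity) hP₀8
    have hP₀0 : 0 < P₀ := by exact_mod_cast hP₀r
    have hzp : ∀ z ∈ P ×ˢ P', 0 < z.1 * z.2 ∧ z.1 * z.2 ≤ Zn ^ 2 := by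
      intro z hz
      rw [mem_product] at hz
      refine ⟨Nat.mul_pos (hPp _ hz.1).1.pos (hPp' _ hz.2).1.pos, ?_⟩
      have h3 := hZ _ hz.1
      have h4 := hZ' _ hz.2
      have h5 : z.1 ≤ Zn := by exact_mod_cast h3
      have h6 : z.2 ≤ Zn := by exact_mod_cast h4
      calc z.1 * z.2 ≤ Zn * Zn := Nat.mul_le_mul h5 h6
        _ = Zn ^ 2 := by ring
    have hLz : ∀ z ∈ P ×ˢ P', Lm' ≤ L / z.1 / z.2 := by
      intro z hz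
      rw [Nat.div_div_eq_div_mul, Nat.le_div_iff_mul_le (hzp z hz).1]
      exact (Nat.mul_le_mul_left _ (hzp z hz).2).trans hL1
    have hstep := step_avg a ha hmul P P' (fun p hp => (hPp p hp).1) (fun p hp => (hPp' p hp).1) P₀
      hP₀0 (fun p hp => (hPp p hp).2) (fun p hp => (hPp' p hp).2) Zn hZ hZ' W₀ (by linarith) hWP
      hWP' η hη hP₀8 (K - (r + 1)) (Qs B P0f R (r + 1)) δ Q' δ' (by linarith) hQ1 hδδ T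
      (fun y hy => (hT y hy).mono hQ1 hδ'δ) φ hφ1
      (fun x hx α hα => hδ'R.trans (hφT x hx α hα).le) hδ'0 v hv0 hv1 hφ0
      (fun y hy => hφy y (hy.mono hQ2 le_rfl)) L (hLh L (by omega))
      (fun z hz => lt_of_lt_of_le (by omega) (hLz z hz)) N (by
        have : Zn ^ 2 ≤ N := by omega
        exact_mod_cast this)
    obtain ⟨z, hz, hstep⟩ := hstep
    have hkK : K - (r + 1) + 1 = K - r := by omega
    rw [hkK] at hstep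
    have hL'L : L / z.1 / z.2 ≤ L := by
      rw [Nat.div_div_eq_div_mul]; exact Nat.div_le_self _ _
    have hL'0 : 0 < L / z.1 / z.2 := lt_of_lt_of_le (by omega) (hLz z hz)
    have hlogL' : Real.log ((L / z.1 / z.2 : ℕ) : ℝ) ≤ ε₁ / 64 * Real.log N := by
      refine le_trans ?_ hlogL
      apply Real.log_le_log (by exact_mod_cast hL'0)
      exact_mod_cast hL'L
    have hnext := hind a ha hmul hdens T v hv0 hv1 hvol (fun y hy => (hT y hy).mono hQ1 hδ'δ) N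
      (L / z.1 / z.2) (hLz z hz) (by omega) (hL'L.trans hLN) hlogL'
      (fun L' h3 h4 => hno L' h3 (h4.trans hL'L))
    have hY := hno (L / z.1 / z.2) hL'0 hL'L
    have hb := hbess a ha hdens N L (by omega) (by omega) hLN hlogL (K - (r + 1))
      (Qs B P0f R (r + 1)) (by omega)
    have hnum := step_num ε₁ η W₀ Q' P₀ K ((K - (r + 1) : ℕ) : ℝ) (Real.log N)
      (Real.log ((Zn : ℝ) ^ 2)) hε₁ hε₁1 hη hW₀ (by linarith) hP₀r (Nat.cast_nonneg _)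
      (by exact_mod_cast Nat.sub_le _ _) h1 h2 (hP0' Q') hlogN0 (Real.log_nonneg hZ2) hlogN1
    have hvX : v * Xe a (K - (r + 1)) (Qs B P0f R (r + 1)) δ N L ≤ v * ((ρ + ε₁ / 4) * Real.log N) :=
      mul_le_mul_of_nonneg_left hb hv0
    have hvε : v * (ε₁ / 4 * Real.log N) ≤ ε₁ / 4 * Real.log N := by
      have : 0 ≤ ε₁ / 4 * Real.log N := by positivity
      nlinarith
    push_cast
    nlinarith

end Pool.Agent.Lib.MP_663568_dch
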