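import Mathlib
import Pool.Agent.Lib.MP_663568_dch.Chain

/-!
# The logarithmic density of the squarefree numbers
-/

set_option autoImplicit false
open Finset

namespace Pool.Agent.Lib.MP_663568_dch

open Pool.Agent.Lib.MP_663568_nt Pool.Agent.Lib.MP_663568_nt.Katai
  Pool.Agent.Lib.MP_663568_nt.Nul Pool.Agent.Lib.MP_663568_nt.H6

/-- the Möbius function with complex values -/
noncomputable def mo (n : ℕ) : ℂ := ((ArithmeticFunction.moebius n : ℤ) : ℂ)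

open Classical in
lemma norm_mo_sq (n : ℕ) : ‖mo n‖ ^ 2 = if Squarefree n then 1 else 0 := by
  unfold mo
  by_cases h : Squarefree n
  · rw [if_pos h, ArithmeticFunction.moebius_apply_of_squarefree h]
    push_cast
    rw [norm_pow]
    simp
  · rw [if_neg h, ArithmeticFunction.moebius_eq_zero_of_not_squarefree h]
    simp

lemma norm_mo_le (n : ℕ) : ‖mo n‖ ≤ 1 := by
  have h := norm_mo_sq n
  have h0 := norm_nonneg (mo n)
  split_ifs at h <;> nlinarith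

lemma mult_mo : Mult mo := by
  intro p hp m hpm
  unfold mo
  have hcop : Nat.Coprime p m := (Nat.Prime.coprime_iff_not_dvd hp).mpr hpm
  rw [ArithmeticFunction.isMultiplicative_moebius.map_mul_of_coprime hcop]
  push_cast
  rfl

lemma sqf_inj (n n' d d' : ℕ) (hn : Squarefree n) (hn' : Squarefree n') (hd : 0 < d) (hd' : 0 < d')
    (h : n * d ^ 2 = n' * d' ^ 2) : n = n' ∧ d = d' := by
  have hn0 : n ≠ 0 := hn.ne_zero
  have hn0' : n' ≠ 0 := hn'.ne_zero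
  have h1 := (Nat.squarefree_iff_factorization_le_one hn0).mp hn
  have h2 := (Nat.squarefree_iff_factorization_le_one hn0').mp hn'
  have hf : n.factorization = n'.factorization := by
    ext p
    have h3 : (n * d ^ 2).factorization p = (n' * d' ^ 2).factorization p := by rw [h]
    rw [Nat.factorization_mul hn0 (by positivity), Nat.factorization_mul hn0' (by positivity),
      Nat.factorization_pow, Nat.factorization_pow] at h3
    simp only [Finsupp.coe_add, Pi.add_apply, Finsupp.smul_apply, smul_eq_mul] at h3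
    have h4 := h1 p
    have h5 := h2 p
    omega
  have hnn : n = n' := Nat.eq_of_factorization_eq hn0 hn0' (fun p => by rw [hf])
  refine ⟨hnn, ?_⟩
  rw [hnn] at h
  have h6 : d ^ 2 = d' ^ 2 := Nat.eq_of_mul_eq_mul_left (Nat.pos_of_ne_zero hn0') h
  exact (Nat.pow_left_injective (by norm_num : (2 : ℕ) ≠ 0)) h6

open Classical in
lemma sqf_sum (N D : ℕ) : (∑ n ∈ Icc 1 N, (1 / (n : ℝ)) * ‖mo n‖ ^ 2) *
    (∑ d ∈ Icc 1 D, 1 / (d : ℝ) ^ 2) ≤ 1 + Real.log ((N * D ^ 2 : ℕ) : ℝ) := by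
  set A : Finset ℕ := (Icc 1 N).filter Squarefree with hA
  have e1 : ∑ n ∈ Icc 1 N, (1 / (n : ℝ)) * ‖mo n‖ ^ 2 = ∑ n ∈ A, 1 / (n : ℝ) := by
    rw [hA, sum_filter]
    refine sum_congr rfl fun n _ => ?_
    rw [norm_mo_sq]
    split_ifs <;> simp
  have e2 : (∑ n ∈ A, 1 / (n : ℝ)) * (∑ d ∈ Icc 1 D, 1 / (d : ℝ) ^ 2) =
      ∑ z ∈ A ×ˢ Icc 1 D, 1 / ((z.1 * z.2 ^ 2 : ℕ) : ℝ) := by
    rw [sum_mul_sum, sum_product]
    refine sum_congr rfl fun n _ => sum_congr rfl fun d _ => ?_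
    push_cast
    rw [one_div_mul_one_div]
  have hinj : Set.InjOn (fun z : ℕ × ℕ => z.1 * z.2 ^ 2) ((A ×ˢ Icc 1 D : Finset (ℕ × ℕ)) : Set (ℕ × ℕ)) := by
    intro z hz z' hz' h
    simp only [mem_coe, mem_product, hA, mem_filter, mem_Icc] at hz hz'
    obtain ⟨h1, h2⟩ := sqf_inj z.1 z'.1 z.2 z'.2 hz.1.2 hz'.1.2 hz.2.1 hz'.2.1 h
    exact Prod.ext h1 h2
  rw [e1, e2]
  calc ∑ z ∈ A ×ˢ Icc 1 D, 1 / ((z.1 * z.2 ^ 2 : ℕ) : ℝ)
      = ∑ m ∈ (A ×ˢ Icc 1 D).image (fun z : ℕ × ℕ => z.1 * z.2 ^ 2), 1 / (m : ℝ) := by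
        rw [sum_image hinj]
    _ ≤ ∑ m ∈ Icc 1 (N * D ^ 2), 1 / (m : ℝ) := by
        apply sum_le_sum_of_subset_of_nonneg
        · intro m hm
          rw [mem_image] at hm
          obtain ⟨z, hz, rfl⟩ := hm
          rw [mem_product, hA, mem_filter, mem_Icc, mem_Icc] at hz
          obtain ⟨⟨⟨h1, h2⟩, _⟩, h3, h4⟩ := hz
          rw [mem_Icc]
          exact ⟨Nat.mul_pos h1 (Nat.pow_pos h3),
            Nat.mul_le_mul h2 (Nat.pow_le_pow_left h4 2)⟩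
        · intro m _ _; positivity
    _ ≤ _ := sum_inv_le_log _

/-- **The logarithmic density of the squarefree numbers is at most `6 / π ^ 2`.** -/
theorem sqf_dens (ε : ℝ) (hε : 0 < ε) : ∃ x₀ : ℕ, DensP (6 / Real.pi ^ 2 + ε) x₀ mo := by
  have hpi := Real.pi_pos
  have hlim : Filter.Tendsto (fun D : ℕ => (∑ d ∈ range (D + 1), 1 / (d : ℝ) ^ 2)⁻¹) Filter.atTop
      (nhds (Real.pi ^ 2 / 6)⁻¹) := by
    apply Filter.Tendsto.inv₀
    · exact (hasSum_zeta_two.tendsto_sum_nat).comp (Filter.tendsto_add_atTop_nat 1)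
    · positivity
  have hev := hlim.eventually (gt_mem_nhds (show (Real.pi ^ 2 / 6)⁻¹ < 6 / Real.pi ^ 2 + ε / 2 by
    rw [inv_div]; linarith))
  obtain ⟨D, hD1, hD⟩ := (hev.and (Filter.eventually_ge_atTop 1)).exists
  have hSe : ∑ d ∈ range (D + 1), 1 / (d : ℝ) ^ 2 = ∑ d ∈ Icc 1 D, 1 / (d : ℝ) ^ 2 := by
    rw [range_eq_Ico, sum_eq_sum_Ico_succ_bot (by omega)]
    simp only [CharP.cast_eq_zero, ne_eq, OfNat.ofNat_ne_zero, not_false_eq_true, zero_pow,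
      div_zero, zero_add]
    rfl
  rw [hSe] at hD1
  set S : ℝ := ∑ d ∈ Icc 1 D, 1 / (d : ℝ) ^ 2 with hS
  have hS0 : 0 < S := by
    have h1 : (1 : ℝ) / ((1 : ℕ) : ℝ) ^ 2 ≤ S := single_le_sum (f := fun d : ℕ => 1 / (d : ℝ) ^ 2)
      (fun d _ => by positivity) (by rw [mem_Icc]; exact ⟨le_rfl, hD⟩)
    norm_num at h1
    linarith
  obtain ⟨c, hc⟩ : ∃ c : ℝ, c = 6 / Real.pi ^ 2 + ε / 2 := ⟨_, rfl⟩
  have hc0 : 0 < c := by rw [hc]; positivity
  rw [← hc] at hD1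
  obtain ⟨x₀, hx₀1, hx₀⟩ := exists_log_ge (c * (1 + Real.log ((D ^ 2 : ℕ) : ℝ)) * (2 / ε))
  refine ⟨x₀, fun x hx => ?_⟩
  have hx1 : 0 < x := by omega
  have hxr : (0 : ℝ) < x := by exact_mod_cast hx1
  have h1 := sqf_sum x D
  rw [← hS] at h1
  have h2 : Real.log ((x * D ^ 2 : ℕ) : ℝ) = Real.log x + Real.log ((D ^ 2 : ℕ) : ℝ) := by
    rw [Nat.cast_mul, Real.log_mul hxr.ne']
    have : (0 : ℝ) < ((D ^ 2 : ℕ) : ℝ) := by positivity
    exact this.ne'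
  rw [h2] at h1
  have h3 := hx₀ x hx
  set l := Real.log x with hl
  set lD := Real.log ((D ^ 2 : ℕ) : ℝ) with hlD
  have hl0 : 0 ≤ l := Real.log_nonneg (by exact_mod_cast hx1)
  have hlD0 : 0 ≤ lD := Real.log_nonneg (by
    have : 1 ≤ D ^ 2 := Nat.pow_pos hD
    exact_mod_cast this)
  have h4 : ∑ n ∈ Icc 1 x, (1 / (n : ℝ)) * ‖mo n‖ ^ 2 ≤ c * (1 + (l + lD)) := by
    rw [← le_div_iff₀ hS0] at h1
    refine h1.trans ?_
    rw [div_eq_inv_mul]
    exact mul_le_mul_of_nonneg_right hD1.le (by positivity)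
  refine h4.trans ?_
  have h5 : c * (1 + lD) ≤ ε / 2 * l := by
    have h6 : c * (1 + lD) * (2 / ε) * (ε / 2) ≤ l * (ε / 2) :=
      mul_le_mul_of_nonneg_right h3 (by positivity)
    have e : c * (1 + lD) * (2 / ε) * (ε / 2) = c * (1 + lD) := by field_simp
    rw [e] at h6
    linarith
  calc c * (1 + (l + lD)) = c * l + c * (1 + lD) := by ring
    _ ≤ c * l + ε / 2 * l := by linarith
    _ = (6 / Real.pi ^ 2 + ε) * l := by rw [hc]; ring

end Pool.Agent.Lib.MP_663568_dch
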