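import Mathlib
import Pool.Agent.Lib.MP_663568_dch.Chain

/-!
# From short windows to long windows
-/

set_option autoImplicit false
open Finset MeasureTheory

namespace Pool.Agent.Lib.MP_663568_dch

open Pool.Agent.Lib.MP_663568_nt Pool.Agent.Lib.MP_663568_nt.Katai
  Pool.Agent.Lib.MP_663568_nt.Nul Pool.Agent.Lib.MP_663568_nt.H6

/-- **From windows of length `L` to windows of length `H`**, with a constant close to `1`. -/
theorem up_J (a : ℕ → ℂ) (ha : ∀ n, ‖a n‖ ≤ 1) (T : Set ℝ) (H L N J : ℕ) (hL : 0 < L)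
    (hLH : L ≤ H) (hHN : H ≤ N) (hJ : 1 ≤ J) :
    ∑ n ∈ Icc (J * H) N, (1 / (n : ℝ)) * GS ph a T H n ≤
      (H / L : ℝ) * ((1 + 1 / (J : ℝ)) * (∑ m ∈ Icc 1 N, (1 / (m : ℝ)) * GS ph a T L m + L)) +
        L * (1 + Real.log N) := by
  have hH0 : 0 < H := by omega
  have hLr : (0 : ℝ) < L := by exact_mod_cast hL
  have hJr : (1 : ℝ) ≤ J := by exact_mod_cast hJ
  have hN0 : (0 : ℝ) < N := by
    have : 0 < N := by omega
    exact_mod_cast this
  obtain ⟨g, hg⟩ : ∃ g : ℕ → ℝ, g = fun m : ℕ => (1 / (m : ℝ)) * GS ph a T L m := ⟨_, rfl⟩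
  have hg0 : ∀ m, 0 ≤ g m := fun m => by
    rw [hg]; exact mul_nonneg (by positivity) (GS_nonneg _ _ _ _ _)
  obtain ⟨c, hc⟩ : ∃ c : ℝ, c = 1 + 1 / (J : ℝ) := ⟨_, rfl⟩
  have hc0 : 0 < c := by rw [hc]; positivity
  have h1 : ∀ n ∈ Icc (J * H) N, (1 / (n : ℝ)) * GS ph a T H n ≤
      ∑ j ∈ range (H / L), c * g (n + j * L) + (1 / (n : ℝ)) * L := by
    intro n hn
    rw [mem_Icc] at hn
    have hHn : H ≤ n := le_trans (Nat.le_mul_of_pos_left H (by omega)) hn.1
    have hn0 : (0 : ℝ) < n := by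
      have : 0 < n := by omega
      exact_mod_cast this
    have hjL : ∀ j, j < H / L → j * L ≤ H := by
      intro j hj
      have h2 : H / L * L ≤ H := Nat.div_mul_le_self H L
      have h3 : j * L ≤ H / L * L := Nat.mul_le_mul_right L hj.le
      omega
    have h2 := GS_up ph a norm_ph ha T (fun _ => T) n H L hL (fun j hj => le_rfl)
    have h3 : (1 / (n : ℝ)) * GS ph a T H n ≤ (1 / (n : ℝ)) *
        (∑ j ∈ range (H / L), GS ph a T L (n + j * L) + L) :=
      mul_le_mul_of_nonneg_left h2 (by positivity)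
    refine h3.trans ?_
    rw [mul_add, mul_sum]
    refine add_le_add (sum_le_sum fun j hj => ?_) le_rfl
    rw [mem_range] at hj
    rw [hg]; beta_reduce
    have h4 : 1 / (n : ℝ) ≤ c * (1 / ((n + j * L : ℕ) : ℝ)) := by
      have h6 : (0 : ℝ) < ((n + j * L : ℕ) : ℝ) := by
        have : 0 < n + j * L := by omega
        exact_mod_cast this
      have h5 : ((n + j * L : ℕ) : ℝ) ≤ c * n := by
        have h7 : ((j * L : ℕ) : ℝ) ≤ H := by exact_mod_cast hjL j hj
        have h8 : (J : ℝ) * H ≤ n := by exact_mod_cast hn.1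
        have h9 : (H : ℝ) ≤ 1 / J * n := by
          rw [div_mul_eq_mul_div, le_div_iff₀ (by linarith)]
          linarith
        push_cast at h7 ⊢
        rw [hc]; linarith
      rw [mul_one_div, div_le_div_iff₀ hn0 h6]
      linarith
    calc (1 / (n : ℝ)) * GS ph a T L (n + j * L) ≤
        (c * (1 / ((n + j * L : ℕ) : ℝ))) * GS ph a T L (n + j * L) :=
          mul_le_mul_of_nonneg_right h4 (GS_nonneg _ _ _ _ _)
      _ = _ := by ring
  have h2 : ∑ m ∈ Icc 1 (N + H), g m ≤ ∑ m ∈ Icc 1 N, g m + L := by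
    have e : ∑ m ∈ Icc 1 (N + H), g m = ∑ m ∈ Icc 1 N, g m + ∑ m ∈ Ioc N (N + H), g m := by
      have h := sum_Ioc_consecutive g (m := 0) (n := N) (k := N + H) (by omega) (by omega)
      have e1 : ∀ T : ℕ, Icc 1 T = Ioc 0 T := by
        intro T; ext x; rw [mem_Icc, mem_Ioc]; omega
      rw [e1, e1, h]
    rw [e]
    refine add_le_add le_rfl ?_
    calc ∑ m ∈ Ioc N (N + H), g m ≤ ∑ m ∈ Ioc N (N + H), (1 / (N : ℝ)) * L := by
          refine sum_le_sum fun m hm => ?_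
          rw [mem_Ioc] at hm
          rw [hg]; beta_reduce
          refine mul_le_mul ?_ (GS_le ph a norm_ph ha _ _ _) (GS_nonneg _ _ _ _ _) (by positivity)
          apply one_div_le_one_div_of_le hN0
          exact_mod_cast hm.1.le
      _ = (H / N) * L := by
          rw [sum_const, Nat.card_Ioc, nsmul_eq_mul, Nat.add_sub_cancel_left]; ring
      _ ≤ 1 * L := by
          apply mul_le_mul_of_nonneg_right _ hLr.le
          rw [div_le_one hN0]
          exact_mod_cast hHN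
      _ = L := one_mul _
  have h3 : ∑ n ∈ Icc (J * H) N, ∑ j ∈ range (H / L), c * g (n + j * L) ≤
      (H / L : ℝ) * (c * (∑ m ∈ Icc 1 N, g m + L)) := by
    rw [sum_comm]
    calc ∑ j ∈ range (H / L), ∑ n ∈ Icc (J * H) N, c * g (n + j * L)
        ≤ ∑ j ∈ range (H / L), c * (∑ m ∈ Icc 1 N, g m + L) := by
          refine sum_le_sum fun j hj => ?_
          rw [mem_range] at hj
          rw [← mul_sum]
          have h4 : j * L ≤ H := by
            have h2 : H / L * L ≤ H := Nat.div_mul_le_self H L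
            have h3 : j * L ≤ H / L * L := Nat.mul_le_mul_right L hj.le
            omega
          have h5 := shift_sum g hg0 (J * H) N (j * L) (N + H) (by omega)
            (Nat.one_le_iff_ne_zero.mpr (Nat.mul_ne_zero (by omega) (by omega)))
          exact mul_le_mul_of_nonneg_left (h5.trans h2) hc0.le
      _ = ((H / L : ℕ) : ℝ) * (c * (∑ m ∈ Icc 1 N, g m + L)) := by
          rw [sum_const, card_range, nsmul_eq_mul]
      _ ≤ _ := by
          have h6 : 0 ≤ ∑ m ∈ Icc 1 N, g m := sum_nonneg fun m _ => hg0 m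
          have h7 : ((H / L : ℕ) : ℝ) ≤ (H : ℝ) / L := Nat.cast_div_le
          gcongr
  have h4 : ∑ n ∈ Icc (J * H) N, (1 / (n : ℝ)) * L ≤ L * (1 + Real.log N) := by
    rw [← sum_mul, mul_comm]
    apply mul_le_mul_of_nonneg_left _ hLr.le
    refine le_trans ?_ (sum_inv_le_log N)
    apply sum_le_sum_of_subset_of_nonneg
    · intro n hn
      rw [mem_Icc] at hn ⊢
      have : 0 < J * H := Nat.mul_pos (by omega) hH0
      omega
    · intro n _ _; positivity
  calc _ ≤ ∑ n ∈ Icc (J * H) N, (∑ j ∈ range (H / L), c * g (n + j * L) + (1 / (n : ℝ)) * L) :=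
        sum_le_sum h1
    _ = ∑ n ∈ Icc (J * H) N, ∑ j ∈ range (H / L), c * g (n + j * L) +
        ∑ n ∈ Icc (J * H) N, (1 / (n : ℝ)) * L := sum_add_distrib
    _ ≤ _ := by
        rw [← hc, ← hg]
        exact add_le_add h3 h4

/-- Cauchy inequality for logarithmic averages -/
lemma avg_of_Ye (a : ℕ → ℂ) (T : Set ℝ) (N L : ℕ) (hL : 0 < L) :
    ∑ m ∈ Icc 1 N, (1 / (m : ℝ)) * GS ph a T L m ≤
      L * √((1 + Real.log N) * Ye a T N L) := by
  have hLr : (0 : ℝ) < L := by exact_mod_cast hL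
  have h1 : (∑ m ∈ Icc 1 N, (1 / (m : ℝ)) * (GS ph a T L m / L)) ^ 2 ≤
      (1 + Real.log N) * Ye a T N L := by
    have h2 := sum_mul_sq_le_sq_mul_sq (Icc 1 N) (fun m : ℕ => √(1 / (m : ℝ)))
      (fun m : ℕ => √(1 / (m : ℝ)) * (GS ph a T L m / L))
    have e1 : ∀ m : ℕ, √(1 / (m : ℝ)) * (√(1 / (m : ℝ)) * (GS ph a T L m / L)) =
        (1 / (m : ℝ)) * (GS ph a T L m / L) := by
      intro m
      rw [← mul_assoc, Real.mul_self_sqrt (by positivity)]
    have e2 : ∀ m : ℕ, √(1 / (m : ℝ)) ^ 2 = 1 / (m : ℝ) := fun m => Real.sq_sqrt (by positivity)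
    have e3 : ∀ m : ℕ, (√(1 / (m : ℝ)) * (GS ph a T L m / L)) ^ 2 =
        (1 / (m : ℝ)) * qa a T m L := by
      intro m
      rw [mul_pow, e2, qa]
    simp only [e1, e2, e3] at h2
    refine h2.trans ?_
    apply mul_le_mul_of_nonneg_right (sum_inv_le_log N)
    exact sum_nonneg fun m _ => mul_nonneg (by positivity) (qa_nonneg _ _ _ _)
  have h3 : ∑ m ∈ Icc 1 N, (1 / (m : ℝ)) * (GS ph a T L m / L) ≤
      √((1 + Real.log N) * Ye a T N L) := Real.le_sqrt_of_sq_le h1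
  calc ∑ m ∈ Icc 1 N, (1 / (m : ℝ)) * GS ph a T L m
      = L * ∑ m ∈ Icc 1 N, (1 / (m : ℝ)) * (GS ph a T L m / L) := by
        rw [mul_sum]
        exact sum_congr rfl fun m _ => by field_simp
    _ ≤ _ := mul_le_mul_of_nonneg_left h3 hLr.le

lemma dil_ph : Dil1 ph (fun y => y) 1 := by
  intro y d _
  refine ⟨(d : ℝ) * y, fun n => ?_, 0, ?_⟩
  · exact (congrFun (ph_mul y d) n).symm
  · simp

lemma corr_ph (ε : ℝ) (hε : 0 < ε) :
    ∃ C : ℕ, 1 ≤ C ∧ ∃ A : ℝ, 1 ≤ A ∧ CorrQ ph (fun y => y) ε C A := by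
  refine ⟨1, le_rfl, 1 + 1 / (2 * ε), by
    have : 0 ≤ 1 / (2 * ε) := by positivity
    linarith, ?_⟩
  intro κ hκ hκ1 L hL y y' j hs
  have h1 := hs 1 le_rfl (by simp)
  rw [Nat.cast_one, one_mul] at h1
  have h2 := geom_nd (y - y') κ hκ h1 j L
  have e : ∀ l : ℕ, ph y (j + l) * (starRingEnd ℂ) (ph y' (j + l)) =
      ee ((y - y') * ((j + l : ℕ) : ℝ)) := by
    intro l
    unfold ph
    rw [← ee_sub]; congr 1; ring
  simp only [e]
  refine h2.trans ?_
  have h3 : (1 + 1 / (2 * ε)) / κ ≤ L := hL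
  rw [div_le_iff₀ hκ] at h3
  have h4 : 1 / (2 * ε) ≤ L * κ := by
    have : (0 : ℝ) < 1 := one_pos
    linarith
  rw [div_le_iff₀ (by positivity)] at h4 ⊢
  nlinarith

/-- sums over windows `(n, n + H]` with `n ≤ J H` -/
lemma low_range (ε : ℝ) (hε : 0 < ε) (J : ℕ) : ∃ D : ℕ, 1 ≤ D ∧ ∀ a : ℕ → ℂ, (∀ n, ‖a n‖ ≤ 1) →
    Mult a → ∀ δ : ℝ, 0 < δ → δ ≤ 1 → ∀ y : ℝ, Sq D δ y → ∀ H n : ℕ, D / (δ * ε) ≤ H →
      n ≤ J * H → ws (ph y) a n H ≤ ε * H := by
  obtain ⟨ε', hε'⟩ : ∃ ε' : ℝ, ε' = ε / (2 * (2 * J + 1)) := ⟨_, rfl⟩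
  have hε'0 : 0 < ε' := by rw [hε']; positivity
  obtain ⟨D, hD, hsing⟩ := single_smallq ph (fun y => y) 1 le_rfl norm_ph dil_ph corr_ph ε' hε'0
  refine ⟨4 * D, by omega, fun a ha hmul δ hδ hδ1 y hy H n hH hn => ?_⟩
  have hDr : (1 : ℝ) ≤ D := by exact_mod_cast hD
  have hy' : Sq D δ y := hy.mono (by push_cast; linarith) le_rfl
  have h1 : ∀ x : ℕ, ws (ph y) a 0 x ≤ ε' * x + D / δ := by
    intro x
    rcases le_or_gt ((D : ℝ) / δ) x with h | h
    · have := hsing a ha hmul δ hδ hδ1 y hy' x 0 h (Nat.zero_le _)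
      have h2 : 0 ≤ (D : ℝ) / δ := by positivity
      linarith
    · have := ws_le (ph y) a (norm_ph y) ha 0 x
      have h2 : 0 ≤ ε' * x := by positivity
      linarith
  have h2 : ws (ph y) a n H ≤ ws (ph y) a 0 (n + H) + ws (ph y) a 0 n := by
    unfold ws
    rw [icc_ioc (fun m => ph y m * a m), icc_ioc (fun m => ph y m * a m),
      icc_ioc (fun m => ph y m * a m), zero_add, zero_add]
    have e := sum_Ioc_consecutive (fun m => ph y m * a m) (m := 0) (n := n) (k := n + H)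
      (by omega) (by omega)
    have e2 : ∑ m ∈ Ioc n (n + H), ph y m * a m =
        ∑ m ∈ Ioc 0 (n + H), ph y m * a m - ∑ m ∈ Ioc 0 n, ph y m * a m := by
      rw [← e]; ring
    rw [e2]
    exact norm_sub_le _ _
  have h3 := h1 (n + H)
  have h4 := h1 n
  have hnr : (n : ℝ) ≤ J * H := by exact_mod_cast hn
  have hH0 : (0 : ℝ) ≤ H := Nat.cast_nonneg _
  push_cast at h3
  have h5 : ε' * (n + H) + ε' * n ≤ ε / 2 * H := by
    calc ε' * (n + H) + ε' * n = ε' * (2 * n + H) := by ring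
      _ ≤ ε' * (2 * (J * H) + H) := by gcongr
      _ = ε / 2 * H := by rw [hε']; field_simp
  have h6 : 2 * ((D : ℝ) / δ) ≤ ε / 2 * H := by
    rw [div_le_iff₀ (by positivity)] at hH
    push_cast at hH
    rw [mul_div_assoc', div_le_iff₀ hδ]
    nlinarith
  linarith

end Pool.Agent.Lib.MP_663568_dch
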