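import Mathlib
import Pool.Agent.Lib.MP_663568_dch.Up
import Pool.Agent.Lib.MP_663568_dch.Sqf

/-!
# The square root law outside the major arcs
-/

set_option autoImplicit false
open Finset MeasureTheory

namespace Pool.Agent.Lib.MP_663568_dch

open Pool.Agent.Lib.MP_663568_nt Pool.Agent.Lib.MP_663568_nt.Katai
  Pool.Agent.Lib.MP_663568_nt.Nul Pool.Agent.Lib.MP_663568_nt.H6

/-- a window length at which the mean square of the largest correlation is small -/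
theorem find_len (ε₁ R ρ : ℝ) (hε₁ : 0 < ε₁) (hε₁1 : ε₁ ≤ 1) (hR : 1 ≤ R) (hρ0 : 0 ≤ ρ)
    (hρ1 : ρ ≤ 1) : ∃ Q : ℝ, 1 ≤ Q ∧ ∀ x₀ : ℕ, ∀ δ : ℝ, 0 < δ → δ ≤ 1 → ∃ H₀ : ℕ, 1 ≤ H₀ ∧
      ∀ a : ℕ → ℂ, (∀ n, ‖a n‖ ≤ 1) → Mult a → DensP ρ x₀ a → ∀ (T : Set ℝ) (v : ℝ), 0 ≤ v →
      v ≤ 1 → volume {y : ℝ | y ∈ Set.Icc (0 : ℝ) 1 ∧ ∃ α ∈ T, nd (α - y) ≤ 1 / R} ≤
          ENNReal.ofReal v → (∀ y ∈ T, Sq Q δ y) → ∀ N H : ℕ, H₀ ≤ H → H ≤ N →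
      ∃ L : ℕ, 0 < L ∧ (L : ℝ) ≤ (H : ℝ) ^ (ε₁ / 64) ∧
        Ye a T N L ≤ (v * ρ + ε₁) * Real.log N := by
  obtain ⟨K, hK⟩ : ∃ K : ℕ, K = ⌈4 / ε₁⌉₊ := ⟨_, rfl⟩
  have hK4 : 4 / ε₁ ≤ K := by rw [hK]; exact Nat.le_ceil _
  have hK0 : (0 : ℝ) < K := lt_of_lt_of_le (by positivity) hK4
  obtain ⟨η, hη⟩ : ∃ η : ℝ, η = ε₁ / (160 * K) := ⟨_, rfl⟩
  have hη0 : 0 < η := by rw [hη]; positivity
  have hK1 : (1 : ℝ) ≤ K := by
    have : 0 < K := by exact_mod_cast hK0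
    exact_mod_cast this
  have hη1 : η ≤ 1 := by
    rw [hη, div_le_one (by positivity)]
    linarith
  have h1 : 5 * η * K ≤ ε₁ / 32 := by
    rw [hη]
    apply le_of_eq
    field_simp
    norm_num
  obtain ⟨W₀, hW₀⟩ : ∃ W₀ : ℝ, W₀ = 1 + ((K : ℝ) + 1) * (K * (8 / η ^ 2)) * 64 / ε₁ := ⟨_, rfl⟩
  have hW₀1 : 1 ≤ W₀ := by
    rw [hW₀]
    have : 0 ≤ ((K : ℝ) + 1) * (K * (8 / η ^ 2)) * 64 / ε₁ := by positivity
    linarith
  have h2 : ((K : ℝ) + 1) * (K * (8 / η ^ 2)) * (2 / W₀) ≤ ε₁ / 32 := by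
    rw [mul_div_assoc', div_le_iff₀ (by linarith)]
    have e : ε₁ / 32 * W₀ = ε₁ / 32 + ((K : ℝ) + 1) * (K * (8 / η ^ 2)) * 2 := by
      rw [hW₀]; field_simp; ring
    rw [e]
    have : 0 ≤ ε₁ / 32 := by positivity
    linarith
  choose B hB1 hB using fun P₀ : ℕ => equ_lower P₀ W₀ η hη0 hη1
  obtain ⟨P0f, hP0f⟩ : ∃ P0f : ℝ → ℕ, P0f = fun Q =>
    ⌈8 / η⌉₊ + ⌈((K : ℝ) + 1) * (K ^ 2 + K * Q) * 128 / ε₁⌉₊ := ⟨_, rfl⟩
  have hP0 : ∀ Q, 8 / η ≤ P0f Q := by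
    intro Q
    rw [hP0f]; push_cast
    have := Nat.le_ceil (8 / η)
    have h3 : (0 : ℝ) ≤ ⌈((K : ℝ) + 1) * (K ^ 2 + K * Q) * 128 / ε₁⌉₊ := Nat.cast_nonneg _
    linarith
  have hP0' : ∀ Q : ℝ, ((K : ℝ) + 1) * (K ^ 2 + K * Q) * 128 / ε₁ ≤ P0f Q := by
    intro Q
    rw [hP0f]; push_cast
    have := Nat.le_ceil (((K : ℝ) + 1) * (K ^ 2 + K * Q) * 128 / ε₁)
    have h3 : (0 : ℝ) ≤ ⌈8 / η⌉₊ := Nat.cast_nonneg _
    linarith
  refine ⟨Qs B P0f R K, Qs_ge_one _ _ _ _, fun x₀ δ hδ hδ1 => ?_⟩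
  obtain ⟨Lm, Nm, hLm, hch⟩ := chain ε₁ R ρ hε₁ hε₁1 hR hρ0 hρ1 x₀ K η W₀ hη0 hW₀1 h1 h2 B hB P0f
    hP0 hP0' K le_rfl δ hδ hδ1
  have hlim : ∀ᶠ H : ℕ in Filter.atTop, (Lm : ℝ) ≤ (H : ℝ) ^ (ε₁ / 64) :=
    ((tendsto_rpow_atTop (by positivity)).comp tendsto_natCast_atTop_atTop).eventually_ge_atTop _
  obtain ⟨H₁, hH₁⟩ := Filter.eventually_atTop.mp hlim
  refine ⟨H₁ + Nm + 2, by omega, ?_⟩
  intro a ha hmul hdens T v hv0 hv1 hvol hT N H hH hHN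
  by_contra hcon
  push Not at hcon
  have hHr : (1 : ℝ) ≤ H := by
    have : 1 ≤ H := by omega
    exact_mod_cast this
  have hHN' : (H : ℝ) ≤ N := by exact_mod_cast hHN
  obtain ⟨L, hL⟩ : ∃ L : ℕ, L = ⌊(H : ℝ) ^ (ε₁ / 64)⌋₊ := ⟨_, rfl⟩
  have hp0 : 0 ≤ (H : ℝ) ^ (ε₁ / 64) := by positivity
  have hLle : (L : ℝ) ≤ (H : ℝ) ^ (ε₁ / 64) := by rw [hL]; exact Nat.floor_le hp0
  have hLmL : Lm ≤ L := by rw [hL]; exact Nat.le_floor (hH₁ H (by omega))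
  have hL0 : (0 : ℝ) < L := by
    have : 0 < L := by omega
    exact_mod_cast this
  have hLH : (L : ℝ) ≤ H := by
    refine hLle.trans ?_
    calc (H : ℝ) ^ (ε₁ / 64) ≤ (H : ℝ) ^ (1 : ℝ) :=
          Real.rpow_le_rpow_of_exponent_le hHr (by linarith)
      _ = H := Real.rpow_one _
  have hLN : L ≤ N := by
    have : (L : ℝ) ≤ N := hLH.trans hHN'
    exact_mod_cast this
  have hlogL : Real.log L ≤ ε₁ / 64 * Real.log N := by
    calc Real.log L ≤ Real.log ((H : ℝ) ^ (ε₁ / 64)) := Real.log_le_log hL0 hLle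
      _ = ε₁ / 64 * Real.log H := Real.log_rpow (by linarith) _
      _ ≤ ε₁ / 64 * Real.log N := by
          apply mul_le_mul_of_nonneg_left _ (by positivity)
          exact Real.log_le_log (by linarith) hHN'
  have h3 := hch a ha hmul hdens T v hv0 hv1 hvol hT N L hLmL (by omega) hLN hlogL
    (fun L' h4 h5 => hcon L' h4 (le_trans (by exact_mod_cast h5) hLle))
  have hN2 : (2 : ℝ) ≤ N := by
    have : 2 ≤ N := by omega
    exact_mod_cast this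
  have hlogN : 0 < Real.log N := Real.log_pos (by linarith)
  have h6 : 0 ≤ Xe a (K - K) (Qs B P0f R K) δ N L :=
    sum_nonneg fun n _ => mul_nonneg (by positivity) (Ph_nonneg a ha _ _ _ _ _)
  have h7 : ρ + ε₁ / 4 - K * (ε₁ / 2) < 0 := by
    rw [div_le_iff₀ hε₁] at hK4
    linarith
  have h8 := mul_neg_of_neg_of_pos h7 hlogN
  linarith

/-- numerical estimate for the final step -/
lemma fin_num' (ε ε₁ s H L J lN E Y : ℝ) (hε : 0 < ε) (hε1 : ε ≤ 1) (hε₁ : 0 < ε₁)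
    (hs0 : 0 ≤ s) (hs1 : s ≤ 1)
    (h3ε : 3 * ε₁ ≤ (ε / 16) ^ 2) (hH : 0 < H) (hL : 0 < L) (hLH : L ≤ ε / 16 * H)
    (hJ : 8 / ε ≤ J) (hlN : 16 / ε ≤ lN) (hlN1 : 1 / ε₁ ≤ lN) (hY0 : 0 ≤ Y)
    (hY : Y ≤ (s ^ 2 + ε₁) * lN) (hE : E ≤ L * √((1 + lN) * Y)) :
    ε / 8 * H * (1 + lN) + ((H / L) * ((1 + 1 / J) * (E + L)) + L * (1 + lN)) ≤
      (s + ε) * H * lN := by
  have hlN16 : 16 ≤ lN := by
    refine le_trans ?_ hlN
    rw [le_div_iff₀ hε]; linarith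
  have hlN0 : 0 < lN := by linarith
  have hJ0 : 0 < J := lt_of_lt_of_le (by positivity) hJ
  have hJi : 1 / J ≤ ε / 8 := by
    rw [div_le_iff₀ hε] at hJ
    rw [div_le_iff₀ hJ0]
    linarith
  have hJi0 : 0 < 1 / J := by positivity
  -- the square root
  have h1 : √((1 + lN) * Y) ≤ (s + ε / 16) * lN := by
    apply Real.sqrt_le_iff.mpr
    refine ⟨by positivity, ?_⟩
    have h2 : 1 + lN ≤ (1 + ε₁) * lN := by
      rw [div_le_iff₀ hε₁] at hlN1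
      linarith
    have hε₁1 : ε₁ ≤ 1 := by nlinarith
    calc (1 + lN) * Y ≤ ((1 + ε₁) * lN) * ((s ^ 2 + ε₁) * lN) :=
          mul_le_mul h2 hY hY0 (by positivity)
      _ = ((1 + ε₁) * (s ^ 2 + ε₁)) * lN ^ 2 := by ring
      _ ≤ (s ^ 2 + 3 * ε₁) * lN ^ 2 := by
          apply mul_le_mul_of_nonneg_right _ (by positivity)
          have : s ^ 2 ≤ 1 := pow_le_one₀ hs0 hs1
          nlinarith
      _ ≤ (s + ε / 16) ^ 2 * lN ^ 2 := by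
          apply mul_le_mul_of_nonneg_right _ (by positivity)
          nlinarith
      _ = _ := by ring
  have h3 : E + L ≤ L * ((s + ε / 8) * lN) := by
    have h4 : 1 ≤ ε / 16 * lN := by
      rw [div_le_iff₀ hε] at hlN
      linarith
    have h5 : E ≤ L * ((s + ε / 16) * lN) := hE.trans (mul_le_mul_of_nonneg_left h1 hL.le)
    have h6 : L ≤ L * (ε / 16 * lN) := le_mul_of_one_le_right hL.le h4
    linarith
  have h7 : (H / L) * ((1 + 1 / J) * (E + L)) ≤ H * ((s + ε / 8 + ε / 4) * lN) := by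
    have h8 : 0 ≤ H / L := by positivity
    calc (H / L) * ((1 + 1 / J) * (E + L)) ≤
          (H / L) * ((1 + ε / 8) * (L * ((s + ε / 8) * lN))) := by
          apply mul_le_mul_of_nonneg_left _ h8
          have h9 : 0 ≤ L * ((s + ε / 8) * lN) := by positivity
          calc (1 + 1 / J) * (E + L) ≤ (1 + 1 / J) * (L * ((s + ε / 8) * lN)) :=
                mul_le_mul_of_nonneg_left h3 (by linarith)
            _ ≤ _ := mul_le_mul_of_nonneg_right (by linarith) h9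
      _ = H * (((1 + ε / 8) * (s + ε / 8)) * lN) := by field_simp
      _ ≤ _ := by
          apply mul_le_mul_of_nonneg_left _ hH.le
          apply mul_le_mul_of_nonneg_right _ hlN0.le
          nlinarith
  have h10 : L * (1 + lN) ≤ ε / 8 * (H * lN) := by
    calc L * (1 + lN) ≤ (ε / 16 * H) * (2 * lN) := by
          apply mul_le_mul hLH (by linarith) (by linarith) (by positivity)
      _ = _ := by ring
  have h11 : ε / 8 * H * (1 + lN) ≤ ε / 4 * (H * lN) := by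
    have : 1 + lN ≤ 2 * lN := by linarith
    calc ε / 8 * H * (1 + lN) ≤ ε / 8 * H * (2 * lN) := by
          apply mul_le_mul_of_nonneg_left this (by positivity)
      _ = _ := by ring
  have h12 : 0 < H * lN := by positivity
  nlinarith

/-- **The square root law outside the major arcs, for general multiplicative functions.** -/
theorem minor_gen (ε R ρ : ℝ) (hε : 0 < ε) (hε1 : ε ≤ 1) (hR : 1 ≤ R) (hρ0 : 0 ≤ ρ) (hρ1 : ρ ≤ 1) :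
    ∃ Q : ℕ, 1 ≤ Q ∧ ∀ x₀ : ℕ, ∀ δ : ℝ, 0 < δ → δ ≤ 1 → ∃ H₀ : ℕ,
      ∀ a : ℕ → ℂ, (∀ n, ‖a n‖ ≤ 1) → Mult a → DensP ρ x₀ a → ∀ N H : ℕ, H₀ ≤ H → H ≤ N →
      ∀ (T : Set ℝ) (v : ℝ), 0 ≤ v → v ≤ 1 →
      volume {y : ℝ | y ∈ Set.Icc (0 : ℝ) 1 ∧ ∃ α ∈ T, nd (α - y) ≤ 1 / R} ≤
          ENNReal.ofReal v → (∀ y ∈ T, Sq Q δ y) →
      ∑ n ∈ Icc 1 N, (1 / (n : ℝ)) * GS ph a T H n ≤ (√(v * ρ) + ε) * H * Real.log N := by
  obtain ⟨ε₁, hε₁⟩ : ∃ ε₁ : ℝ, ε₁ = (ε / 16) ^ 2 / 3 := ⟨_, rfl⟩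
  have hε₁0 : 0 < ε₁ := by rw [hε₁]; positivity
  have hε₁1 : ε₁ ≤ 1 := by rw [hε₁]; nlinarith
  obtain ⟨Q₁, hQ₁, hfind⟩ := find_len ε₁ R ρ hε₁0 hε₁1 hR hρ0 hρ1
  obtain ⟨J, hJ⟩ : ∃ J : ℕ, J = ⌈8 / ε⌉₊ := ⟨_, rfl⟩
  have hJ8 : 8 / ε ≤ J := by rw [hJ]; exact Nat.le_ceil _
  have hJ0 : (0 : ℝ) < J := lt_of_lt_of_le (by positivity) hJ8
  have hJ1 : 1 ≤ J := by exact_mod_cast hJ0
  obtain ⟨D, hD, hlow⟩ := low_range (ε / 8) (by positivity) J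
  refine ⟨⌈Q₁⌉₊ + D, by omega, fun x₀ δ hδ hδ1 => ?_⟩
  obtain ⟨H₁, hH₁, hfind⟩ := hfind x₀ δ hδ hδ1
  obtain ⟨N₁, hN₁1, hN₁⟩ := exists_log_ge (16 / ε + 1 / ε₁)
  obtain ⟨H₂, hH₂⟩ : ∃ H₂ : ℕ, H₂ = ⌈(D : ℝ) / (δ * (ε / 8))⌉₊ + ⌈(16 / ε) ^ 2⌉₊ := ⟨_, rfl⟩
  refine ⟨H₁ + N₁ + H₂ + 1, ?_⟩
  intro a ha hmul hdens N H hH hHN T v hv0 hv1 hvol hT
  have hHr : (1 : ℝ) ≤ H := by
    have : 1 ≤ H := by omega
    exact_mod_cast this
  have hHN' : (H : ℝ) ≤ N := by exact_mod_cast hHN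
  have hQle : Q₁ ≤ ((⌈Q₁⌉₊ + D : ℕ) : ℝ) := by
    push_cast
    have := Nat.le_ceil Q₁
    have h3 : (0 : ℝ) ≤ D := Nat.cast_nonneg _
    linarith
  have hDle : (D : ℝ) ≤ ((⌈Q₁⌉₊ + D : ℕ) : ℝ) := by
    push_cast
    have h3 : (0 : ℝ) ≤ ⌈Q₁⌉₊ := Nat.cast_nonneg _
    linarith
  obtain ⟨L, hL0, hLle, hY⟩ := hfind a ha hmul hdens T v hv0 hv1 hvol
    (fun y hy => (hT y hy).mono hQle le_rfl) N H (by omega) hHN
  have hLr : (0 : ℝ) < L := by exact_mod_cast hL0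
  have hH2r : ((D : ℝ) / (δ * (ε / 8)) ≤ H) ∧ (16 / ε) ^ 2 ≤ (H : ℝ) := by
    have h1 := Nat.le_ceil ((D : ℝ) / (δ * (ε / 8)))
    have h2 := Nat.le_ceil ((16 / ε) ^ 2)
    have h3 : ((⌈(D : ℝ) / (δ * (ε / 8))⌉₊ + ⌈(16 / ε) ^ 2⌉₊ : ℕ) : ℝ) ≤ H := by
      rw [← hH₂]; exact_mod_cast (by omega : H₂ ≤ H)
    push_cast at h3
    have h4 : (0 : ℝ) ≤ ⌈(D : ℝ) / (δ * (ε / 8))⌉₊ := Nat.cast_nonneg _
    have h5 : (0 : ℝ) ≤ ⌈(16 / ε) ^ 2⌉₊ := Nat.cast_nonneg _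
    constructor <;> linarith
  obtain ⟨hHD, hHε⟩ := hH2r
  -- `L` is small
  have hLH : (L : ℝ) ≤ ε / 16 * H := by
    have h1 : (L : ℝ) ≤ (H : ℝ) ^ (1 / 2 : ℝ) :=
      hLle.trans (Real.rpow_le_rpow_of_exponent_le hHr (by linarith))
    rw [← Real.sqrt_eq_rpow] at h1
    have h2 : 16 / ε ≤ √(H : ℝ) := Real.le_sqrt_of_sq_le hHε
    have h3 : √(H : ℝ) * √(H : ℝ) = H := Real.mul_self_sqrt (by linarith)
    have h4 : 0 ≤ √(H : ℝ) := Real.sqrt_nonneg _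
    rw [div_le_iff₀ hε] at h2
    nlinarith
  have hLHn : L ≤ H := by
    have : (L : ℝ) ≤ H := by nlinarith
    exact_mod_cast this
  have hlog := hN₁ N (by omega)
  have hl1 : 16 / ε ≤ Real.log N := by
    have : 0 < 1 / ε₁ := by positivity
    linarith
  have hl2 : 1 / ε₁ ≤ Real.log N := by
    have : 0 < 16 / ε := by positivity
    linarith
  have hlogN0 : 0 ≤ Real.log N := Real.log_nonneg (by linarith)
  -- the long range
  have hup := up_J a ha T H L N J hL0 hLHn hHN hJ1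
  have hE := avg_of_Ye a T N L hL0
  have hY0 : 0 ≤ Ye a T N L := sum_nonneg fun n _ => mul_nonneg (by positivity) (qa_nonneg _ _ _ _)
  have hs2 : √(v * ρ) ^ 2 = v * ρ := Real.sq_sqrt (by positivity)
  have hs1 : √(v * ρ) ≤ 1 := Real.sqrt_le_one.mpr (by nlinarith)
  -- the short range
  have hterm : ∀ n ∈ Ico 1 (J * H), (1 / (n : ℝ)) * GS ph a T H n ≤
      (1 / (n : ℝ)) * (ε / 8 * H) := by
    intro n hn
    rw [mem_Ico] at hn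
    refine mul_le_mul_of_nonneg_left ?_ (by positivity)
    rw [GS, GG]
    apply Real.iSup_le
    · rintro ⟨y, hy⟩
      exact hlow a ha hmul δ hδ hδ1 y ((hT y hy).mono hDle le_rfl) H n hHD hn.2.le
    · positivity
  have hsplit : ∑ n ∈ Icc 1 N, (1 / (n : ℝ)) * GS ph a T H n ≤
      ∑ n ∈ (Ico 1 (J * H)).filter (fun n => n ≤ N), (1 / (n : ℝ)) * GS ph a T H n +
      ∑ n ∈ Icc (J * H) N, (1 / (n : ℝ)) * GS ph a T H n := by
    rw [← sum_union]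
    · apply sum_le_sum_of_subset_of_nonneg
      · intro n hn
        rw [mem_Icc] at hn
        rw [mem_union, mem_filter, mem_Ico, mem_Icc]
        omega
      · intro n _ _
        exact mul_nonneg (by positivity) (GS_nonneg _ _ _ _ _)
    · rw [disjoint_left]
      intro n hn hn'
      rw [mem_filter, mem_Ico] at hn
      rw [mem_Icc] at hn'
      omega
  have hshort : ∑ n ∈ (Ico 1 (J * H)).filter (fun n => n ≤ N), (1 / (n : ℝ)) * GS ph a T H n ≤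
      ε / 8 * H * (1 + Real.log N) := by
    calc _ ≤ ∑ n ∈ (Ico 1 (J * H)).filter (fun n => n ≤ N), (1 / (n : ℝ)) * (ε / 8 * H) :=
          sum_le_sum fun n hn => hterm n (mem_filter.mp hn).1
      _ = ε / 8 * H * ∑ n ∈ (Ico 1 (J * H)).filter (fun n => n ≤ N), (1 / (n : ℝ)) := by
          rw [← sum_mul, mul_comm]
      _ ≤ ε / 8 * H * (1 + Real.log N) := by
          apply mul_le_mul_of_nonneg_left _ (by positivity)
          refine le_trans ?_ (sum_inv_le_log N)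
          apply sum_le_sum_of_subset_of_nonneg
          · intro n hn
            rw [mem_filter, mem_Ico] at hn
            rw [mem_Icc]; omega
          · intro n _ _; positivity
  have hfin := fin_num' ε ε₁ (√(v * ρ)) H L J (Real.log N) _ (Ye a T N L) hε hε1 hε₁0
    (Real.sqrt_nonneg _) hs1 (by rw [hε₁]; linarith) (by linarith) hLr hLH hJ8 hl1 hl2 hY0
    (by rw [hs2]; exact hY) hE
  linarith

end Pool.Agent.Lib.MP_663568_dch
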