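import Mathlib
import Pool.Agent.Lib.MP_663568_dch.MinorA

/-!
# The square root law outside the major arcs for the Möbius function
-/

set_option autoImplicit false
open Finset MeasureTheory

namespace Pool.Agent.Lib.MP_663568_dch

open Pool.Agent.Lib.MP_663568_nt Pool.Agent.Lib.MP_663568_nt.Katai
  Pool.Agent.Lib.MP_663568_nt.Nul Pool.Agent.Lib.MP_663568_nt.H6

lemma window_eq' (y : ℝ) (H n : ℕ) :
    ‖∑ h ∈ Icc 1 H, ph y (n + h) * mo (n + h)‖ =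
      ‖∑ h ∈ Icc 1 H, ((ArithmeticFunction.moebius (n + h) : ℤ) : ℂ) *
          Complex.exp (2 * Real.pi * Complex.I * (y : ℝ) * h)‖ := by
  have e : ∑ h ∈ Icc 1 H, ph y (n + h) * mo (n + h) =
      ee (y * n) * ∑ h ∈ Icc 1 H, ((ArithmeticFunction.moebius (n + h) : ℤ) : ℂ) *
          Complex.exp (2 * Real.pi * Complex.I * (y : ℝ) * h) := by
    rw [mul_sum]
    refine sum_congr rfl fun h _ => ?_
    have h1 : ph y (n + h) = ee (y * n) * ee (y * h) := by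
      rw [ph, ← ee_add]; congr 1; push_cast; ring
    have h2 : Complex.exp (2 * Real.pi * Complex.I * (y : ℝ) * h) = ee (y * h) := by
      rw [ee]; congr 1; push_cast; ring
    rw [h1, h2, mo]
    ring
  rw [e, norm_mul, norm_ee, one_mul]

/-- **The square root law outside the major arcs.** -/
theorem minorLaw : ∀ ε R : ℝ, 0 < ε → 1 ≤ R → ∃ Q : ℕ, 1 ≤ Q ∧ ∀ δ : ℝ, 0 < δ → δ ≤ 1 →
    ∃ H0 : ℕ, ∀ N H : ℕ, H0 ≤ H → H ≤ N → ∀ (A : Set ℝ) (v : ℝ), 0 ≤ v →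
    volume {y : ℝ | y ∈ Set.Icc 0 1 ∧ ∃ α ∈ A, ∃ b : ℤ, |α - y - b| ≤ 1 / R} ≤ ENNReal.ofReal v →
    ∑ n ∈ Icc 1 N, (1 / (n : ℝ)) *
      ⨆ y : {y : ℝ // y ∈ A ∧ ∀ q : ℕ, 1 ≤ q → q ≤ Q → ∀ b : ℤ, δ ≤ |(q : ℝ) * y - b|},
        ‖∑ h ∈ Icc 1 H, ((ArithmeticFunction.moebius (n + h) : ℤ) : ℂ) *
          Complex.exp (2 * Real.pi * Complex.I * (y : ℝ) * h)‖ ≤
      (√(6 * v) / Real.pi + ε) * H * Real.log N := by
  intro ε R hε hR
  obtain ⟨e, he⟩ : ∃ e : ℝ, e = min ε 1 / 2 := ⟨_, rfl⟩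
  have he0 : 0 < e := by rw [he]; positivity
  have he1 : e ≤ 1 / 2 := by
    rw [he]
    have := min_le_right ε 1
    linarith
  have he2 : 2 * e ≤ ε := by
    rw [he]
    have := min_le_left ε 1
    linarith
  have hpi := Real.pi_gt_three
  have hpi2 : 9 ≤ Real.pi ^ 2 := by nlinarith
  obtain ⟨ρ, hρ⟩ : ∃ ρ : ℝ, ρ = 6 / Real.pi ^ 2 + e ^ 2 := ⟨_, rfl⟩
  have hρ0 : 0 ≤ ρ := by rw [hρ]; positivity
  have hρ1 : ρ ≤ 1 := by
    rw [hρ]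
    have h1 : 6 / Real.pi ^ 2 ≤ 6 / 9 := div_le_div_of_nonneg_left (by norm_num) (by norm_num) hpi2
    nlinarith
  obtain ⟨Q, hQ, h⟩ := minor_gen e R ρ he0 (by linarith) hR hρ0 hρ1
  obtain ⟨x₀, hx₀⟩ := sqf_dens (e ^ 2) (by positivity)
  rw [← hρ] at hx₀
  refine ⟨Q, hQ, fun δ hδ hδ1 => ?_⟩
  obtain ⟨H₀, hH₀⟩ := h x₀ δ hδ hδ1
  refine ⟨H₀ + 1, fun N H hH hHN A v hv0 hv => ?_⟩
  obtain ⟨w, hw⟩ : ∃ w : ℝ, w = min v 1 := ⟨_, rfl⟩
  have hw0 : 0 ≤ w := by rw [hw]; exact le_min hv0 zero_le_one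
  have hw1 : w ≤ 1 := by rw [hw]; exact min_le_right _ _
  have hwv : w ≤ v := by rw [hw]; exact min_le_left _ _
  set T : Set ℝ := {y : ℝ | y ∈ A ∧ ∀ q : ℕ, 1 ≤ q → q ≤ Q → ∀ b : ℤ, δ ≤ |(q : ℝ) * y - b|}
    with hT
  have hTq : ∀ y ∈ T, Sq Q δ y := by
    rintro y ⟨_, hy⟩ q hq1 hq2
    obtain ⟨b, hb⟩ := nd_exists ((q : ℝ) * y)
    rw [hb]
    exact hy q hq1 (by exact_mod_cast hq2) b
  have hvol : volume {y : ℝ | y ∈ Set.Icc (0 : ℝ) 1 ∧ ∃ α ∈ T, nd (α - y) ≤ 1 / R} ≤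
      ENNReal.ofReal w := by
    have h1 : volume {y : ℝ | y ∈ Set.Icc (0 : ℝ) 1 ∧ ∃ α ∈ T, nd (α - y) ≤ 1 / R} ≤
        ENNReal.ofReal v := by
      refine (measure_mono ?_).trans hv
      rintro y ⟨hy, α, hα, hn⟩
      obtain ⟨b, hb⟩ := nd_exists (α - y)
      rw [hb] at hn
      exact ⟨hy, α, hα.1, b, hn⟩
    have h2 : volume {y : ℝ | y ∈ Set.Icc (0 : ℝ) 1 ∧ ∃ α ∈ T, nd (α - y) ≤ 1 / R} ≤
        ENNReal.ofReal 1 := by
      refine (measure_mono (fun y hy => hy.1)).trans ?_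
      rw [Real.volume_Icc]
      norm_num
    rw [hw, ENNReal.ofReal_min]
    exact le_min h1 h2
  have key := hH₀ mo norm_mo_le mult_mo hx₀ N H (by omega) hHN T w hw0 hw1 hvol hTq
  have e1 : ∀ n : ℕ, GS ph mo T H n =
      ⨆ y : {y : ℝ // y ∈ A ∧ ∀ q : ℕ, 1 ≤ q → q ≤ Q → ∀ b : ℤ, δ ≤ |(q : ℝ) * y - b|},
        ‖∑ h ∈ Icc 1 H, ((ArithmeticFunction.moebius (n + h) : ℤ) : ℂ) *
          Complex.exp (2 * Real.pi * Complex.I * (y : ℝ) * h)‖ := by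
    intro n
    unfold GS GG
    exact iSup_congr fun y => window_eq' y.1 H n
  have h3 : √(w * ρ) ≤ √(6 * v) / Real.pi + e := by
    apply Real.sqrt_le_iff.mpr
    refine ⟨by positivity, ?_⟩
    have h4 : (√(6 * v) / Real.pi) ^ 2 = 6 * v / Real.pi ^ 2 := by
      rw [div_pow, Real.sq_sqrt (by positivity)]
    have h5 : 0 ≤ √(6 * v) / Real.pi := by positivity
    have h6 : w * ρ ≤ 6 * v / Real.pi ^ 2 + e ^ 2 := by
      rw [hρ]
      have h7 : w * (6 / Real.pi ^ 2) ≤ v * (6 / Real.pi ^ 2) :=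
        mul_le_mul_of_nonneg_right hwv (by positivity)
      have h8 : w * e ^ 2 ≤ 1 * e ^ 2 := mul_le_mul_of_nonneg_right hw1 (by positivity)
      have e2 : 6 * v / Real.pi ^ 2 = v * (6 / Real.pi ^ 2) := by ring
      rw [e2]; linarith
    have h9 : 0 ≤ 2 * (√(6 * v) / Real.pi) * e := by positivity
    nlinarith
  have hH1 : (1 : ℝ) ≤ H := by
    have : 1 ≤ H := by omega
    exact_mod_cast this
  have hHN' : (H : ℝ) ≤ N := by exact_mod_cast hHN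
  have hlog : 0 ≤ Real.log N := Real.log_nonneg (by linarith)
  calc _ = ∑ n ∈ Icc 1 N, (1 / (n : ℝ)) * GS ph mo T H n := by
        exact sum_congr rfl fun n _ => by rw [e1 n]
    _ ≤ (√(w * ρ) + e) * H * Real.log N := key
    _ ≤ (√(6 * v) / Real.pi + ε) * H * Real.log N := by
        apply mul_le_mul_of_nonneg_right _ hlog
        apply mul_le_mul_of_nonneg_right _ (by linarith)
        linarith

end Pool.Agent.Lib.MP_663568_dch
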